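import Pool.Agent.Helper82.Sullivan.Defs

/-!
# The current `T` on the torus
-/

open MeasureTheory Set Filter Topology
open scoped ContDiff NNReal

namespace Pool.Agent.Helper82.Sullivan

lemma mem_Lat {z : ℂ × ℂ} : z ∈ Lat ↔ ∃ a b c d : ℤ,
    z = ((a : ℂ) + (b : ℂ) * Complex.I, (c : ℂ) + (d : ℂ) * Complex.I) := by
  constructor
  · intro hz
    unfold Lat at hz
    induction hz using AddSubgroup.closure_induction with
    | mem x hx =>
      simp only [mem_insert_iff, mem_singleton_iff] at hx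
      rcases hx with rfl | rfl | rfl | rfl
      · exact ⟨1, 0, 0, 0, by simp⟩
      · exact ⟨0, 1, 0, 0, by simp⟩
      · exact ⟨0, 0, 1, 0, by simp⟩
      · exact ⟨0, 0, 0, 1, by simp⟩
    | zero => exact ⟨0, 0, 0, 0, by ext <;> simp⟩
    | add x y _ _ hx hy =>
      obtain ⟨a, b, c, d, rfl⟩ := hx
      obtain ⟨a', b', c', d', rfl⟩ := hy
      refine ⟨a + a', b + b', c + c', d + d', ?_⟩
      rw [Prod.mk_add_mk]
      push_cast
      congr 1 <;> ring
    | neg x _ hx =>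
      obtain ⟨a, b, c, d, rfl⟩ := hx
      refine ⟨-a, -b, -c, -d, ?_⟩
      rw [Prod.neg_mk]
      push_cast
      congr 1 <;> ring
  · rintro ⟨a, b, c, d, rfl⟩
    have h1 : ((1, 0) : ℂ × ℂ) ∈ Lat := AddSubgroup.subset_closure (by simp)
    have h2 : ((Complex.I, 0) : ℂ × ℂ) ∈ Lat := AddSubgroup.subset_closure (by simp)
    have h3 : ((0, 1) : ℂ × ℂ) ∈ Lat := AddSubgroup.subset_closure (by simp)
    have h4 : ((0, Complex.I) : ℂ × ℂ) ∈ Lat := AddSubgroup.subset_closure (by simp)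
    have h := Lat.add_mem (Lat.add_mem (Lat.zsmul_mem h1 a) (Lat.zsmul_mem h2 b))
      (Lat.add_mem (Lat.zsmul_mem h3 c) (Lat.zsmul_mem h4 d))
    have e : a • ((1, 0) : ℂ × ℂ) + b • ((Complex.I, 0) : ℂ × ℂ) +
        (c • ((0, 1) : ℂ × ℂ) + d • ((0, Complex.I) : ℂ × ℂ)) =
        ((a : ℂ) + (b : ℂ) * Complex.I, (c : ℂ) + (d : ℂ) * Complex.I) := by
      ext <;> simp
    rwa [e] at h

lemma proj_add_lat (z : ℂ × ℂ) {v : ℂ × ℂ} (hv : v ∈ Lat) : proj (z + v) = proj z := by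
  unfold proj
  rw [QuotientAddGroup.eq]
  simpa using Lat.neg_mem hv

lemma proj_eq_iff {z w : ℂ × ℂ} : proj z = proj w ↔ w - z ∈ Lat := by
  unfold proj
  rw [QuotientAddGroup.eq, neg_add_eq_sub]

/-- direction vectors of the three edges -/
noncomputable def dir : Fin 3 → ℂ × ℂ := ![(1/3, 1/3), (-2/3, 1/3), (1/3, -2/3)]

/-- standard basis vectors -/
noncomputable def bas : Fin 2 → ℂ × ℂ := ![(1, 0), (0, 1)]

lemma dir_sum : dir 0 + dir 1 + dir 2 = 0 := by
  ext <;> simp [dir] <;> ring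

/-- the `k`-th (real) coordinate of the direction `dir j` -/
noncomputable def dirc (j : Fin 3) : Fin 2 → ℝ := ![![1/3, 1/3], ![-2/3, 1/3], ![1/3, -2/3]] j

lemma dir_eq (j : Fin 3) : dir j = dirc j 0 • bas 0 + dirc j 1 • bas 1 := by
  fin_cases j <;> ext <;> simp [dir, dirc, bas]

lemma dir_sub_lat (j : Fin 3) : dir j - dir 0 ∈ Lat := by
  rw [mem_Lat]
  fin_cases j
  · exact ⟨0, 0, 0, 0, by ext <;> simp [dir]⟩
  · refine ⟨-1, 0, 0, 0, ?_⟩
    simp only [dir]
    ext <;> simp <;> norm_num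
  · refine ⟨0, 0, -1, 0, ?_⟩
    simp only [dir]
    ext <;> simp <;> norm_num

/-- the parametrization of the `j`-th face -/
noncomputable def gam (j : Fin 3) : (Fin 3 → ℝ) →L[ℝ] ℂ × ℂ :=
  (ContinuousLinearMap.proj (R := ℝ) (φ := fun _ : Fin 3 => ℝ) 0).smulRight (dir j) +
  (ContinuousLinearMap.proj (R := ℝ) (φ := fun _ : Fin 3 => ℝ) 1).smulRight (Complex.I • bas 0) +
  (ContinuousLinearMap.proj (R := ℝ) (φ := fun _ : Fin 3 => ℝ) 2).smulRight (Complex.I • bas 1)

lemma gam_apply (j : Fin 3) (p : Fin 3 → ℝ) :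
    gam j p = p 0 • dir j + p 1 • (Complex.I • bas 0) + p 2 • (Complex.I • bas 1) := rfl

/-- integrand -/
noncomputable def intd (η : Torus → ℂ × ℂ → ℂ × ℂ → ℝ) (j : Fin 3) (p : Fin 3 → ℝ) : ℝ :=
  η (proj (gam j p)) (dir j) (Complex.I • dir j)

lemma continuous_intd {η : Torus → ℂ × ℂ → ℂ × ℂ → ℝ} (hη : IsForm2 η) (j : Fin 3) :
    Continuous (intd η j) :=
  (hη.2.2.2 (dir j) (Complex.I • dir j)).continuous.comp (gam j).continuous

/-- the current `T` -/
noncomputable def T (η : Torus → ℂ × ℂ → ℂ × ℂ → ℝ) : ℝ :=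
  ∑ j : Fin 3, ∫ p in Icc (0 : Fin 3 → ℝ) 1, intd η j p

lemma norm_dir_le (j : Fin 3) : ‖dir j‖ ≤ 1 := by
  rw [Prod.norm_def]
  fin_cases j <;> simp [dir] <;> norm_num

lemma norm_Idir_le (j : Fin 3) : ‖Complex.I • dir j‖ ≤ 1 := by
  rw [norm_smul, Complex.norm_I, one_mul]
  exact norm_dir_le j

lemma T_isCurrent : IsCurrent T := by
  refine ⟨?_, ?_, 0, 3, ?_⟩
  · intro η ζ hη hζ
    unfold T
    rw [← Finset.sum_add_distrib]
    congr 1
    funext j
    rw [← integral_add (continuous_intd hη j).integrableOn_Icc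
      (continuous_intd hζ j).integrableOn_Icc]
    rfl
  · intro a η hη
    unfold T
    rw [Finset.mul_sum]
    congr 1
    funext j
    rw [← integral_const_mul]
    rfl
  · intro η hη B hB
    have hB' : ∀ j p, ‖intd η j p‖ ≤ B := by
      intro j p
      have := hB 0 le_rfl (gam j p) _ _ (norm_dir_le j) (norm_Idir_le j)
      rwa [norm_iteratedFDeriv_zero] at this
    unfold T
    refine (Finset.abs_sum_le_sum_abs _ _).trans ?_
    have hj : ∀ j ∈ (Finset.univ : Finset (Fin 3)),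
        |∫ p in Icc (0 : Fin 3 → ℝ) 1, intd η j p| ≤ B := by
      intro j _
      have h1 := norm_setIntegral_le_of_norm_le_const (μ := (volume : Measure (Fin 3 → ℝ)))
        (s := Icc (0 : Fin 3 → ℝ) 1) (f := intd η j) (C := B) (by
          rw [Real.volume_Icc_pi]; simp) (fun p _ => hB' j p)
      rw [Real.norm_eq_abs] at h1
      refine h1.trans (le_of_eq ?_)
      simp [Measure.real, Real.volume_Icc_pi]
    refine (Finset.sum_le_sum hj).trans (le_of_eq ?_)
    simp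

/-! ### Closedness -/

/-- the pulled back `1`-form evaluated on a vector -/
def bval (β : Torus → ℂ × ℂ → ℝ) (v : ℂ × ℂ) (w : ℂ × ℂ) : ℝ := β (proj w) v

lemma bval_differentiable {β : Torus → ℂ × ℂ → ℝ} (hβ : IsForm1 β) (v : ℂ × ℂ) :
    Differentiable ℝ (bval β v) :=
  (hβ.2.2 v).differentiable (by simp)

lemma extDeriv_eval {β : Torus → ℂ × ℂ → ℝ} {η : Torus → ℂ × ℂ → ℂ × ℂ → ℝ}
    (h : IsExtDeriv β η) (z : ℂ × ℂ) (u v : ℂ × ℂ) :
    η (proj z) u v = fderiv ℝ (bval β v) z u - fderiv ℝ (bval β u) z v := h z u v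

lemma bval_periodic (β : Torus → ℂ × ℂ → ℝ) (v : ℂ × ℂ) (z : ℂ × ℂ) {l : ℂ × ℂ} (hl : l ∈ Lat) :
    bval β v (z + l) = bval β v z := by
  unfold bval
  rw [proj_add_lat z hl]

lemma I_bas_mem (k : Fin 2) : Complex.I • bas k ∈ Lat := by
  rw [mem_Lat]
  fin_cases k
  · exact ⟨0, 1, 0, 0, by ext <;> simp [bas]⟩
  · exact ⟨0, 0, 0, 1, by ext <;> simp [bas]⟩

lemma gam_single (j : Fin 3) : gam j (Pi.single 0 1) = dir j ∧
    gam j (Pi.single 1 1) = Complex.I • bas 0 ∧ gam j (Pi.single 2 1) = Complex.I • bas 1 := by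
  refine ⟨?_, ?_, ?_⟩ <;> rw [gam_apply] <;> simp

/-- closedness of `T`, edge by edge -/
lemma integral_intd {β : Torus → ℂ × ℂ → ℝ} {η : Torus → ℂ × ℂ → ℂ × ℂ → ℝ} (hβ : IsForm1 β)
    (hη : IsForm2 η) (h : IsExtDeriv β η) (j : Fin 3) :
    ∫ p in Icc (0 : Fin 3 → ℝ) 1, intd η j p =
      (∫ x in Icc (0 : Fin 2 → ℝ) 1,
        β (proj (dir 0 + (x 0 • (Complex.I • bas 0) + x 1 • (Complex.I • bas 1))))
          (Complex.I • dir j)) -
      ∫ x in Icc (0 : Fin 2 → ℝ) 1,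
        β (proj (x 0 • (Complex.I • bas 0) + x 1 • (Complex.I • bas 1)))
          (Complex.I • dir j) := by
  set f : Fin 3 → (Fin 3 → ℝ) → ℝ := ![fun p => bval β (Complex.I • dir j) (gam j p),
    fun p => (-dirc j 0) * bval β (dir j) (gam j p),
    fun p => (-dirc j 1) * bval β (dir j) (gam j p)] with hf
  set f' : Fin 3 → (Fin 3 → ℝ) → ((Fin 3 → ℝ) →L[ℝ] ℝ) :=
    ![fun p => (fderiv ℝ (bval β (Complex.I • dir j)) (gam j p)).comp (gam j),
    fun p => (-dirc j 0) • (fderiv ℝ (bval β (dir j)) (gam j p)).comp (gam j),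
    fun p => (-dirc j 1) • (fderiv ℝ (bval β (dir j)) (gam j p)).comp (gam j)] with hf'
  have hbase : ∀ (v : ℂ × ℂ) (p : Fin 3 → ℝ), HasFDerivAt (fun p => bval β v (gam j p))
      ((fderiv ℝ (bval β v) (gam j p)).comp (gam j)) p := by
    intro v p
    exact ((bval_differentiable hβ v (gam j p)).hasFDerivAt).comp p (gam j).hasFDerivAt
  have hd : ∀ p i, HasFDerivAt (f i) (f' i p) p := by
    intro p i
    fin_cases i
    · exact hbase _ p
    · exact (hbase (dir j) p).const_mul (-dirc j 0)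
    · exact (hbase (dir j) p).const_mul (-dirc j 1)
  have hsum : ∀ p, ∑ i, f' i p (Pi.single i 1) = intd η j p := by
    intro p
    rw [Fin.sum_univ_three]
    have e0 : f' 0 p (Pi.single 0 1) = fderiv ℝ (bval β (Complex.I • dir j)) (gam j p) (dir j) := by
      change fderiv ℝ (bval β (Complex.I • dir j)) (gam j p) (gam j (Pi.single 0 1)) = _
      rw [(gam_single j).1]
    have e1 : f' 1 p (Pi.single 1 1) = (-dirc j 0) *
        fderiv ℝ (bval β (dir j)) (gam j p) (Complex.I • bas 0) := by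
      change (-dirc j 0) * fderiv ℝ (bval β (dir j)) (gam j p) (gam j (Pi.single 1 1)) = _
      rw [(gam_single j).2.1]
    have e2 : f' 2 p (Pi.single 2 1) = (-dirc j 1) *
        fderiv ℝ (bval β (dir j)) (gam j p) (Complex.I • bas 1) := by
      change (-dirc j 1) * fderiv ℝ (bval β (dir j)) (gam j p) (gam j (Pi.single 2 1)) = _
      rw [(gam_single j).2.2]
    rw [e0, e1, e2]
    unfold intd
    rw [extDeriv_eval h]
    have hI : Complex.I • dir j = dirc j 0 • (Complex.I • bas 0) + dirc j 1 • (Complex.I • bas 1) := by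
      rw [dir_eq j, smul_add, smul_comm Complex.I (dirc j 0), smul_comm Complex.I (dirc j 1)]
    have hL : ∀ L : (ℂ × ℂ) →L[ℝ] ℝ, L (Complex.I • dir j) =
        dirc j 0 * L (Complex.I • bas 0) + dirc j 1 * L (Complex.I • bas 1) := by
      intro L
      rw [hI, map_add, L.map_smul (dirc j 0), L.map_smul (dirc j 1), smul_eq_mul, smul_eq_mul]
    rw [hL]
    ring
  have hcont : ∀ i, Continuous (f i) := fun i =>
    continuous_iff_continuousAt.2 fun p => (hd p i).continuousAt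
  have key := integral_divergence_of_hasFDerivAt_off_countable' (E := ℝ) (n := 2)
    (0 : Fin 3 → ℝ) (1 : Fin 3 → ℝ) (by intro i; simp) f f' ∅ (by simp)
    (fun i => (hcont i).continuousOn) (fun x _ i => hd x i)
    (by
      simp only [hsum]
      exact (continuous_intd hη j).integrableOn_Icc)
  simp only [hsum] at key
  rw [key, Fin.sum_univ_three]
  have hface : ∀ i : Fin 3, ((0 : Fin 3 → ℝ) ∘ i.succAbove) = (0 : Fin 2 → ℝ) ∧
      ((1 : Fin 3 → ℝ) ∘ i.succAbove) = (1 : Fin 2 → ℝ) := fun i => ⟨rfl, rfl⟩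
  simp only [(hface _).1, (hface _).2]
  have ins0 : ∀ (a : ℝ) (x : Fin 2 → ℝ), (Fin.insertNth 0 a x : Fin 3 → ℝ) = ![a, x 0, x 1] := by
    intro a x; ext i; fin_cases i <;> rfl
  have ins1 : ∀ (a : ℝ) (x : Fin 2 → ℝ), (Fin.insertNth 1 a x : Fin 3 → ℝ) = ![x 0, a, x 1] := by
    intro a x; ext i; fin_cases i <;> rfl
  have ins2 : ∀ (a : ℝ) (x : Fin 2 → ℝ), (Fin.insertNth 2 a x : Fin 3 → ℝ) = ![x 0, x 1, a] := by
    intro a x; ext i; fin_cases i <;> rfl
  have z1 : (∫ x in Icc (0 : Fin 2 → ℝ) 1, f 1 (Fin.insertNth 1 ((1 : Fin 3 → ℝ) 1) x)) -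
      ∫ x in Icc (0 : Fin 2 → ℝ) 1, f 1 (Fin.insertNth 1 ((0 : Fin 3 → ℝ) 1) x) = 0 := by
    rw [sub_eq_zero]
    congr 1
    funext x
    change (-dirc j 0) * bval β (dir j) (gam j _) = (-dirc j 0) * bval β (dir j) (gam j _)
    congr 1
    rw [← bval_periodic β (dir j) (gam j (Fin.insertNth 1 ((0 : Fin 3 → ℝ) 1) x)) (I_bas_mem 0)]
    congr 1
    rw [gam_apply, gam_apply, ins1, ins1]
    simp only [Matrix.cons_val_zero, Matrix.cons_val_one, Matrix.cons_val, Pi.one_apply,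
      Pi.zero_apply, one_smul, zero_smul]
    abel
  have z2 : (∫ x in Icc (0 : Fin 2 → ℝ) 1, f 2 (Fin.insertNth 2 ((1 : Fin 3 → ℝ) 2) x)) -
      ∫ x in Icc (0 : Fin 2 → ℝ) 1, f 2 (Fin.insertNth 2 ((0 : Fin 3 → ℝ) 2) x) = 0 := by
    rw [sub_eq_zero]
    congr 1
    funext x
    change (-dirc j 1) * bval β (dir j) (gam j _) = (-dirc j 1) * bval β (dir j) (gam j _)
    congr 1
    rw [← bval_periodic β (dir j) (gam j (Fin.insertNth 2 ((0 : Fin 3 → ℝ) 2) x)) (I_bas_mem 1)]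
    congr 1
    rw [gam_apply, gam_apply, ins2, ins2]
    simp only [Matrix.cons_val_zero, Matrix.cons_val_one, Matrix.cons_val, Pi.one_apply,
      Pi.zero_apply, one_smul, zero_smul]
    abel
  rw [z1, z2, add_zero, add_zero]
  congr 1
  · congr 1
    funext x
    change bval β (Complex.I • dir j) (gam j _) = bval β (Complex.I • dir j) _
    rw [← bval_periodic β (Complex.I • dir j) (dir 0 + _) (dir_sub_lat j), gam_apply, ins0]
    congr 1
    simp only [Matrix.cons_val_zero, Matrix.cons_val_one, Matrix.cons_val, Pi.one_apply,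
      one_smul]
    abel
  · congr 1
    funext x
    change bval β (Complex.I • dir j) (gam j _) = bval β (Complex.I • dir j) _
    rw [gam_apply, ins0]
    congr 1
    simp only [Matrix.cons_val_zero, Matrix.cons_val_one, Matrix.cons_val,
      Pi.zero_apply, zero_smul]
    abel

lemma T_closed (β : Torus → ℂ × ℂ → ℝ) (η : Torus → ℂ × ℂ → ℂ × ℂ → ℝ) (hβ : IsForm1 β)
    (hη : IsForm2 η) (h : IsExtDeriv β η) : T η = 0 := by
  unfold T
  simp only [integral_intd hβ hη h]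
  rw [Fin.sum_univ_three]
  have hc : ∀ (v : ℂ × ℂ) (g : (Fin 2 → ℝ) → ℂ × ℂ), Continuous g →
      IntegrableOn (fun x : Fin 2 → ℝ => β (proj (g x)) v) (Icc 0 1) := by
    intro v g hg
    apply Continuous.integrableOn_Icc
    exact (hβ.2.2 v).continuous.comp hg
  have key : ∀ g : (Fin 2 → ℝ) → ℂ × ℂ, Continuous g →
      (∫ x in Icc (0 : Fin 2 → ℝ) 1, β (proj (g x)) (Complex.I • dir 0)) +
      (∫ x in Icc (0 : Fin 2 → ℝ) 1, β (proj (g x)) (Complex.I • dir 1)) +
      (∫ x in Icc (0 : Fin 2 → ℝ) 1, β (proj (g x)) (Complex.I • dir 2)) = 0 := by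
    intro g hg
    rw [← integral_add (hc _ g hg) (hc _ g hg), ← integral_add]
    · have : ∀ x : Fin 2 → ℝ, β (proj (g x)) (Complex.I • dir 0) +
          β (proj (g x)) (Complex.I • dir 1) + β (proj (g x)) (Complex.I • dir 2) = 0 := by
        intro x
        rw [← hβ.1, ← hβ.1, ← smul_add, ← smul_add, dir_sum, smul_zero]
        have := hβ.2.1 (proj (g x)) 0 0
        simpa using this
      simp only [this, integral_zero]
    · exact (hc _ g hg).add (hc _ g hg)
    · exact hc _ g hg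
  have k1 := key (fun x => dir 0 + (x 0 • (Complex.I • bas 0) + x 1 • (Complex.I • bas 1)))
    (by fun_prop)
  have k2 := key (fun x => (x 0 • (Complex.I • bas 0) + x 1 • (Complex.I • bas 1))) (by fun_prop)
  linarith

/-! ### Membership in the closed cone -/

lemma T_cone (m : ℕ) (η : Fin m → Torus → ℂ × ℂ → ℂ × ℂ → ℝ) (hη : ∀ i, IsForm2 (η i))
    (ε : ℝ) (hε : 0 < ε) :
    ∃ (n : ℕ) (a : Fin n → ℝ) (x : Fin n → Torus) (u : Fin n → ℂ × ℂ), (∀ j, 0 ≤ a j) ∧
      ∀ i, |T (η i) - ∑ j, a j * η i (x j) (u j) (Complex.I • u j)| < ε := by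
  set v : Torus × (ℂ × ℂ) → (Fin m → ℝ) := fun q i => η i q.1 q.2 (Complex.I • q.2) with hv
  set K : Submodule ℝ≥0 (Fin m → ℝ) := Submodule.span ℝ≥0 (range v) with hK
  set C : Submodule ℝ≥0 (Fin m → ℝ) := K.topologicalClosure with hC
  have hCclosed : IsClosed (C : Set (Fin m → ℝ)) := K.isClosed_topologicalClosure
  have hCconv : Convex ℝ (C : Set (Fin m → ℝ)) := by
    intro x hx y hy a b ha hb _
    have h1 := C.smul_mem (⟨a, ha⟩ : ℝ≥0) hx
    have h2 := C.smul_mem (⟨b, hb⟩ : ℝ≥0) hy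
    exact C.add_mem h1 h2
  have hprob : IsProbabilityMeasure ((volume : Measure (Fin 3 → ℝ)).restrict (Icc 0 1)) := by
    refine ⟨?_⟩
    rw [Measure.restrict_apply_univ, Real.volume_Icc_pi]
    simp
  have hint : ∀ j : Fin 3, Integrable (fun (p : Fin 3 → ℝ) (i : Fin m) => intd (η i) j p)
      ((volume : Measure (Fin 3 → ℝ)).restrict (Icc 0 1)) := by
    intro j
    have : Continuous (fun (p : Fin 3 → ℝ) (i : Fin m) => intd (η i) j p) :=
      continuous_pi fun i => continuous_intd (hη i) j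
    exact this.integrableOn_Icc
  have hmem : ∀ j : Fin 3, (∫ p in Icc (0 : Fin 3 → ℝ) 1, (fun (i : Fin m) => intd (η i) j p)) ∈
      (C : Set (Fin m → ℝ)) := by
    intro j
    refine hCconv.integral_mem hCclosed (Eventually.of_forall fun p => ?_) (hint j)
    apply K.le_topologicalClosure
    exact Submodule.subset_span ⟨(proj (gam j p), dir j), rfl⟩
  have hTC : (fun i => T (η i)) ∈ (C : Set (Fin m → ℝ)) := by
    have hsum : (∑ j : Fin 3, ∫ p in Icc (0 : Fin 3 → ℝ) 1, (fun (i : Fin m) => intd (η i) j p)) ∈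
      C := C.sum_mem fun j _ => hmem j
    have heq : (fun i => T (η i)) =
        ∑ j : Fin 3, ∫ p in Icc (0 : Fin 3 → ℝ) 1, (fun (i : Fin m) => intd (η i) j p) := ?_
    · rw [heq]; exact hsum
    funext i
    rw [Finset.sum_apply]
    unfold T
    congr 1
    funext j
    exact (ContinuousLinearMap.integral_comp_comm
      (ContinuousLinearMap.proj (R := ℝ) (φ := fun _ : Fin m => ℝ) i) (hint j))
  have hTC' : (fun i => T (η i)) ∈ closure (K : Set (Fin m → ℝ)) := hTC
  rw [Metric.mem_closure_iff] at hTC'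
  obtain ⟨w, hwK, hw⟩ := hTC' ε hε
  obtain ⟨c, hc⟩ := (Finsupp.mem_span_range_iff_exists_finsupp).1 hwK
  set e := c.support.equivFin with he
  refine ⟨c.support.card, fun j => (c (e.symm j).1 : ℝ), fun j => (e.symm j).1.1,
    fun j => (e.symm j).1.2, fun j => (c (e.symm j).1).2, ?_⟩
  intro i
  have h1 : ∑ j, (c (e.symm j).1 : ℝ) * η i (e.symm j).1.1 (e.symm j).1.2
      (Complex.I • (e.symm j).1.2) = w i := by
    rw [← hc, Finsupp.sum, Finset.sum_apply]
    rw [← Finset.sum_coe_sort c.support]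
    rw [← e.symm.sum_comp]
    rfl
  rw [h1]
  have h2 := (dist_le_pi_dist (fun i => T (η i)) w i).trans_lt hw
  rwa [Real.dist_eq] at h2

theorem T_isComplexCycle : IsComplexCycle T := ⟨T_isCurrent, T_closed, T_cone⟩

end Pool.Agent.Helper82.Sullivan
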