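import Mathlib

/-!
# Complex cycles and averages of subvarieties on the complex torus `ℂ² / ℤ[i]²`

All the notions of the problem (smooth forms, currents, complex cycles, irreducible closed
analytic subvarieties of pure dimension one, integration currents, averages) for the compact
complex surface `M = ℂ² / ℤ[i]²` and `k = 1`, `p = 2`. All tangent spaces of `M` are identified
with `ℂ × ℂ` through the quotient map.
-/

open MeasureTheory Set Filter Topology
open scoped ContDiff

namespace Pool.Agent.Helper82.Sullivan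

/-- The lattice `ℤ[i]²` in `ℂ²`. -/
def Lat : AddSubgroup (ℂ × ℂ) :=
  AddSubgroup.closure {(1, 0), (Complex.I, 0), (0, 1), (0, Complex.I)}

/-- The compact complex surface `M = ℂ² / ℤ[i]²` (a complex torus). -/
abbrev Torus : Type := (ℂ × ℂ) ⧸ Lat

/-- The quotient map `ℂ² → M`. It is a local homeomorphism and the complex structure of `M` is the
one for which it is locally biholomorphic. -/
def proj (z : ℂ × ℂ) : Torus := QuotientAddGroup.mk z

/-- `β` is a smooth real `1`-form on `M`: an `ℝ`-linear form `β x` on `T_xM = ℂ²` for each `x`,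
with smooth coefficients. -/
def IsForm1 (β : Torus → ℂ × ℂ → ℝ) : Prop :=
  (∀ x u v, β x (u + v) = β x u + β x v) ∧ (∀ x (a : ℝ) u, β x (a • u) = a * β x u) ∧
  ∀ u, ContDiff ℝ ∞ fun z => β (proj z) u

/-- `η` is a smooth real `2`-form on `M`: an alternating `ℝ`-bilinear form `η x` on
`T_xM = ℂ²` for each `x`, with smooth coefficients. -/
def IsForm2 (η : Torus → ℂ × ℂ → ℂ × ℂ → ℝ) : Prop :=
  (∀ x u v w, η x (u + v) w = η x u w + η x v w) ∧ (∀ x (a : ℝ) u v, η x (a • u) v = a * η x u v) ∧
  (∀ x u v, η x u v = - η x v u) ∧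
  ∀ u v, ContDiff ℝ ∞ fun z => η (proj z) u v

/-- `η = dβ`: the `2`-form `η` is the exterior derivative of the `1`-form `β`, that is,
`η(u, v) = ∂_u (β(v)) - ∂_v (β(u))` for all constant vector fields `u, v` on `M`. -/
def IsExtDeriv (β : Torus → ℂ × ℂ → ℝ) (η : Torus → ℂ × ℂ → ℂ × ℂ → ℝ) : Prop :=
  ∀ z u v, η (proj z) u v =
    fderiv ℝ (fun w => β (proj w) v) z u - fderiv ℝ (fun w => β (proj w) u) z v

/-- The support of `η` is contained in `U` (it is closed and `M` is compact, so this says that
`η` has compact support in `U`). -/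
def SupportedIn (η : Torus → ℂ × ℂ → ℂ × ℂ → ℝ) (U : Set Torus) : Prop :=
  closure {x | ∃ u v, η x u v ≠ 0} ⊆ U

/-- `c` is a `2`-current on `M`: a linear functional on the smooth `2`-forms which is continuous
for the `C^∞`-topology, that is, bounded by a constant times the maximum of the sup-norms of
finitely many derivatives of the coefficients. -/
def IsCurrent (c : (Torus → ℂ × ℂ → ℂ × ℂ → ℝ) → ℝ) : Prop :=
  (∀ η ζ, IsForm2 η → IsForm2 ζ → c (fun x u v => η x u v + ζ x u v) = c η + c ζ) ∧
  (∀ (a : ℝ) η, IsForm2 η → c (fun x u v => a * η x u v) = a * c η) ∧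
  ∃ (N : ℕ) (C : ℝ), ∀ η, IsForm2 η → ∀ B : ℝ,
    (∀ m ≤ N, ∀ z u v, ‖u‖ ≤ 1 → ‖v‖ ≤ 1 →
      ‖iteratedFDeriv ℝ m (fun w => η (proj w) u v) z‖ ≤ B) → |c η| ≤ C * B

/-- `c` is a complex cycle (`k = 1`): a closed `2`-current in the weak closure of the convex cone
generated by the Dirac currents `η ↦ η_x(v)`, `v ∈ C_x`. The cone `C_x` is generated by the
`2`-vectors `u ∧ iu` (for `u ≠ 0` these are the `2`-vectors representing a complex line with its
complex orientation), so that a general element of the cone of currents is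
`η ↦ ∑ a_j η_{x_j}(u_j, i u_j)` with `a_j ≥ 0`. -/
def IsComplexCycle (c : (Torus → ℂ × ℂ → ℂ × ℂ → ℝ) → ℝ) : Prop :=
  IsCurrent c ∧
  (∀ β η, IsForm1 β → IsForm2 η → IsExtDeriv β η → c η = 0) ∧
  ∀ (m : ℕ) (η : Fin m → Torus → ℂ × ℂ → ℂ × ℂ → ℝ), (∀ i, IsForm2 (η i)) → ∀ ε > 0,
    ∃ (n : ℕ) (a : Fin n → ℝ) (x : Fin n → Torus) (u : Fin n → ℂ × ℂ), (∀ j, 0 ≤ a j) ∧
      ∀ i, |c (η i) - ∑ j, a j * η i (x j) (u j) (Complex.I • u j)| < ε

/-- `A` is a closed complex analytic subset of the open set `U ⊆ M`: a subset of `U` which near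
every point of `U` is the common zero set of finitely many holomorphic functions. -/
def IsAnalyticIn (U A : Set Torus) : Prop :=
  A ⊆ U ∧ ∀ z, proj z ∈ U → ∃ W : Set (ℂ × ℂ), IsOpen W ∧ z ∈ W ∧
    ∃ (m : ℕ) (f : Fin m → ℂ × ℂ → ℂ), (∀ j, AnalyticOnNhd ℂ (f j) W) ∧
      ∀ w ∈ W, (proj w ∈ A ↔ ∀ j, f j w = 0)

/-- The point `proj z` is a one-dimensional regular point of `A`: there is a holomorphic chart `ψ`
(a biholomorphic map between open subsets of `ℂ²`) around `z` in which `A` is given by the
vanishing of the second coordinate. -/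
def IsRegPt (A : Set Torus) (z : ℂ × ℂ) : Prop :=
  proj z ∈ A ∧ ∃ ψ : OpenPartialHomeomorph (ℂ × ℂ) (ℂ × ℂ), z ∈ ψ.source ∧
    AnalyticOnNhd ℂ ψ ψ.source ∧ AnalyticOnNhd ℂ ψ.symm ψ.target ∧
    ∀ w ∈ ψ.source, (proj w ∈ A ↔ (ψ w).2 = 0)

/-- `A` is an irreducible closed complex analytic subvariety of `U` of pure complex dimension one.
Pure dimension one: the one-dimensional regular points are dense. Irreducible: nonempty and not
the union of two closed analytic subsets of `U` different from it. -/
def IsIrredCurve (U A : Set Torus) : Prop :=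
  IsAnalyticIn U A ∧ (∀ z, proj z ∈ A → z ∈ closure {w | IsRegPt A w}) ∧ A.Nonempty ∧
    ∀ A₁ A₂, IsAnalyticIn U A₁ → IsAnalyticIn U A₂ → A = A₁ ∪ A₂ → A = A₁ ∨ A = A₂

/-- `Z_1(U)`: the set of irreducible closed complex analytic subvarieties of `U` of pure complex
dimension one. -/
def Subvar (U : Set Torus) : Type := {A : Set Torus // IsIrredCurve U A}

/-- The half-open cube, a fundamental domain of the lattice `ℤ[i]²`. -/
def cell : Set (ℂ × ℂ) :=
  {z | z.1.re ∈ Ico (-(1/2)) (1/2) ∧ z.1.im ∈ Ico (-(1/2)) (1/2) ∧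
    z.2.re ∈ Ico (-(1/2)) (1/2) ∧ z.2.im ∈ Ico (-(1/2)) (1/2)}

/-- Two-dimensional surface area in `ℂ² = ℝ⁴`: the Hausdorff measure for the Euclidean metric,
normalized to be Lebesgue measure on planes. -/
noncomputable def area : Measure (ℂ × ℂ) :=
  Measure.map (fun z : EuclideanSpace ℂ (Fin 2) => (z 0, z 1)) μHE[2]

/-- A unit vector `u` tangent to `A` at `proj z` (if there is one). At a one-dimensional regular
point the tangent cone of `A` is the tangent space `T A`, a complex line, and `u ∧ iu` is the unit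
`2`-vector representing `T A` with its complex orientation; it does not depend on the choice
of `u`. -/
noncomputable def unitTangent (A : Set Torus) (z : ℂ × ℂ) : ℂ × ℂ :=
  Classical.epsilon fun u => ‖u.1‖ ^ 2 + ‖u.2‖ ^ 2 = 1 ∧ u ∈ tangentConeAt ℝ (proj ⁻¹' A) z

/-- The integration current `[A](η) = ∫_{A_reg} η`: the integral over the regular locus of `A`,
with respect to surface area, of `η` evaluated on the unit `2`-vector `u ∧ iu` orienting it. -/
noncomputable def integ (A : Set Torus) (η : Torus → ℂ × ℂ → ℂ × ℂ → ℝ) : ℝ :=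
  ∫ z in {z | z ∈ cell ∧ IsRegPt A z},
    η (proj z) (unitTangent A z) (Complex.I • unitTangent A z) ∂area

/-- The topology of `Z_1(U)`, induced by `V ↦ [V]` from the weak topology on the `2`-currents
on `U` (functionals on the smooth `2`-forms with compact support in `U`). -/
noncomputable instance (U : Set Torus) : TopologicalSpace (Subvar U) :=
  TopologicalSpace.induced
    (fun V (η : {η : Torus → ℂ × ℂ → ℂ × ℂ → ℝ // IsForm2 η ∧ SupportedIn η U}) =>
      integ V.1 η.1) Pi.topologicalSpace

/-- The Borel sigma-algebra of `Z_1(U)`. -/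
noncomputable instance (U : Set Torus) : MeasurableSpace (Subvar U) := borel _

/-- On the open set `U`, the current `c` is an average of irreducible subvarieties: there is a
non-negative measure `ν` on `Z_1(U)` with `c(η) = ∫ [V](η) dν(V)` for all smooth `2`-forms `η`
with compact support in `U`. -/
def IsAverageOn (c : (Torus → ℂ × ℂ → ℂ × ℂ → ℝ) → ℝ) (U : Set Torus) : Prop :=
  ∃ ν : Measure (Subvar U), ∀ η, IsForm2 η → SupportedIn η U →
    Integrable (fun V : Subvar U => integ V.1 η) ν ∧ c η = ∫ V : Subvar U, integ V.1 η ∂ν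

end Pool.Agent.Helper82.Sullivan
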