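import Pool.Agent.Helper82.Sullivan.Reg

/-!
# Integrals of the test forms
-/

open MeasureTheory Set Filter Topology
open scoped ContDiff NNReal ENNReal

namespace Pool.Agent.Helper82.Sullivan

lemma mem_cell {z : ℂ × ℂ} : z ∈ cell ↔
    ∀ k, reC k z ∈ Ico (-(1/2) : ℝ) (1/2) ∧ imC k z ∈ Ico (-(1/2) : ℝ) (1/2) := by
  constructor
  · rintro ⟨h1, h2, h3, h4⟩ k
    fin_cases k
    · exact ⟨h1, h2⟩
    · exact ⟨h3, h4⟩
  · intro h
    exact ⟨(h 0).1, (h 0).2, (h 1).1, (h 1).2⟩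

lemma measurableSet_cell : MeasurableSet cell := by
  have : cell = ⋂ k, (reC k ⁻¹' Ico (-(1/2) : ℝ) (1/2) ∩ imC k ⁻¹' Ico (-(1/2) : ℝ) (1/2)) := by
    ext z
    simp [mem_cell]
  rw [this]
  refine MeasurableSet.iInter fun k => MeasurableSet.inter ?_ ?_
  · exact (reC k).continuous.measurable measurableSet_Ico
  · exact (imC k).continuous.measurable measurableSet_Ico

lemma cell_unique {z w : ℂ × ℂ} (hz : z ∈ cell) (hw : w ∈ cell) (h : w - z ∈ Lat) : w = z := by
  have key : ∀ k, reC k w = reC k z ∧ imC k w = imC k z := by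
    intro k
    obtain ⟨a, b, ha, hb⟩ := lat_coord h k
    rw [map_sub] at ha hb
    have h1 := (mem_cell.1 hz k)
    have h2 := (mem_cell.1 hw k)
    simp only [mem_Ico] at h1 h2
    have ha0 : a = 0 := by
      have h3 : (-1 : ℝ) < (a : ℝ) := by linarith [h1.1.2, h2.1.1]
      have h4 : (a : ℝ) < 1 := by linarith [h1.1.1, h2.1.2]
      have h3' : -1 < a := by exact_mod_cast h3
      have h4' : a < 1 := by exact_mod_cast h4
      omega
    have hb0 : b = 0 := by
      have h3 : (-1 : ℝ) < (b : ℝ) := by linarith [h1.2.2, h2.2.1]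
      have h4 : (b : ℝ) < 1 := by linarith [h1.2.1, h2.2.2]
      have h3' : -1 < b := by exact_mod_cast h3
      have h4' : b < 1 := by exact_mod_cast h4
      omega
    rw [ha0] at ha
    rw [hb0] at hb
    push_cast at ha hb
    exact ⟨by linarith, by linarith⟩
  exact Prod.ext (Complex.ext (key 0).1 (key 0).2) (Complex.ext (key 1).1 (key 1).2)

/-- the open cube of half-side `r` -/
def cube (r : ℝ) : Set (ℂ × ℂ) := {z | ∀ k, |reC k z| < r ∧ |imC k z| < r}

lemma mem_cube {r : ℝ} {z : ℂ × ℂ} : z ∈ cube r ↔ ∀ k, |reC k z| < r ∧ |imC k z| < r := Iff.rfl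

lemma isOpen_cube (r : ℝ) : IsOpen (cube r) := by
  have : cube r = ⋂ k, ({z | |reC k z| < r} ∩ {z | |imC k z| < r}) := by
    ext z
    simp [mem_cube]
  rw [this]
  refine isOpen_iInter_of_finite fun k => IsOpen.inter ?_ ?_
  · exact isOpen_lt (by fun_prop) continuous_const
  · exact isOpen_lt (by fun_prop) continuous_const

lemma cube_subset_cell {r : ℝ} (hr : r ≤ 1/2) : cube r ⊆ cell := by
  intro z hz
  rw [mem_cell]
  intro k
  have h := mem_cube.1 hz k
  rw [abs_lt, abs_lt] at h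
  exact ⟨⟨by linarith [h.1.1], by linarith [h.1.2]⟩, ⟨by linarith [h.2.1], by linarith [h.2.2]⟩⟩

lemma abs_reC_le (k : Fin 2) (z : ℂ × ℂ) : |reC k z| ≤ ‖z‖ := by
  fin_cases k
  · exact (Complex.abs_re_le_norm z.1).trans (norm_fst_le z)
  · exact (Complex.abs_re_le_norm z.2).trans (norm_snd_le z)

lemma abs_imC_le (k : Fin 2) (z : ℂ × ℂ) : |imC k z| ≤ ‖z‖ := by
  fin_cases k
  · exact (Complex.abs_im_le_norm z.1).trans (norm_fst_le z)
  · exact (Complex.abs_im_le_norm z.2).trans (norm_snd_le z)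

lemma mem_cube_of_norm_lt {r : ℝ} {z : ℂ × ℂ} (h : ‖z‖ < r) : z ∈ cube r := fun k =>
  ⟨(abs_reC_le k z).trans_lt h, (abs_imC_le k z).trans_lt h⟩

lemma glue_le_one (x : ℝ) : expNegInvGlue x ≤ 1 := by
  unfold expNegInvGlue
  split_ifs with h
  · exact zero_le_one
  · push Not at h
    rw [Real.exp_le_one_iff]
    have := inv_pos.2 h
    linarith

lemma bumpE_le_one (κ : ℝ) (z : ℂ × ℂ) : bumpE κ z ≤ 1 := by
  unfold bumpE bump
  refine mul_le_one₀ (mul_le_one₀ (glue_le_one _) (expNegInvGlue.nonneg _) (glue_le_one _))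
    (mul_nonneg (expNegInvGlue.nonneg _) (expNegInvGlue.nonneg _))
    (mul_le_one₀ (glue_le_one _) (expNegInvGlue.nonneg _) (glue_le_one _))

lemma bumpE_zero_pos {κ : ℝ} (h : κ < 1) : 0 < bumpE κ 0 := by
  have h0 : 0 < bump κ 0 := bump_pos (by simpa using h)
  unfold bumpE
  simp only [map_zero]
  positivity

lemma integ_tf (A : Set Torus) (κ : ℝ) (q : ℂ × ℂ) :
    integ A (tf κ q) = ∫ z in cell ∩ Reg A, bumpE κ (z - q) ∂area := by
  unfold integ
  refine setIntegral_congr_fun (measurableSet_cell.inter (measurableSet_Reg A)) ?_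
  intro z hz
  have hR : z ∈ Reg A := hz.2
  change tf κ q (proj z) (unitTangent A z) (Complex.I • unitTangent A z) = _
  rw [tf_apply, norm_unitTangent hR, mul_one]

lemma integ_tf_nonneg (A : Set Torus) (κ : ℝ) (q : ℂ × ℂ) : 0 ≤ integ A (tf κ q) := by
  rw [integ_tf]
  exact integral_nonneg fun z => bumpE_nonneg κ _

lemma integ_tf_pos {A : Set Torus} {κ : ℝ} {q z : ℂ × ℂ} {B : Set (ℂ × ℂ)} {r : ℝ} (hr : r ≤ 1/2)
    (hzR : z ∈ Reg A) (hzr : z ∈ cube r)
    (hfin : area (Reg A ∩ B) < ⊤)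
    (hpos : 0 < bumpE κ (z - q))
    (hsupp : ∀ w ∈ cell, bumpE κ (w - q) ≠ 0 → w ∈ B) : 0 < integ A (tf κ q) := by
  rw [integ_tf]
  have hcont : Continuous fun w : ℂ × ℂ => bumpE κ (w - q) :=
    (bumpE_contDiff κ).continuous.comp (continuous_id.sub continuous_const)
  have hmeas : MeasurableSet (cell ∩ Reg A) := measurableSet_cell.inter (measurableSet_Reg A)
  set S : Set (ℂ × ℂ) := {w | bumpE κ (w - q) ≠ 0} with hS
  have hSo : IsOpen S := isOpen_ne_fun hcont continuous_const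
  have hSm : MeasurableSet S := hSo.measurableSet
  have hint : IntegrableOn (fun w : ℂ × ℂ => bumpE κ (w - q)) (cell ∩ Reg A) area := by
    have h1 : IntegrableOn (fun w : ℂ × ℂ => bumpE κ (w - q)) (cell ∩ Reg A ∩ S) area := by
      have hlt : area (cell ∩ Reg A ∩ S) < ⊤ := by
        refine (measure_mono ?_).trans_lt hfin
        rintro w ⟨⟨hw1, hw2⟩, hw3⟩
        exact ⟨hw2, hsupp w hw1 hw3⟩
      refine IntegrableOn.of_bound hlt hcont.aestronglyMeasurable 1 ?_
      refine Eventually.of_forall fun w => ?_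
      rw [Real.norm_of_nonneg (bumpE_nonneg κ _)]
      exact bumpE_le_one κ _
    have h2 : IntegrableOn (fun w : ℂ × ℂ => bumpE κ (w - q)) ((cell ∩ Reg A) \ S) area := by
      have h0 : IntegrableOn (fun _ : ℂ × ℂ => (0 : ℝ)) ((cell ∩ Reg A) \ S) area :=
        integrableOn_zero
      refine h0.congr_fun ?_ (hmeas.diff hSm)
      intro w hw
      have : ¬ (bumpE κ (w - q) ≠ 0) := hw.2
      push Not at this
      exact this.symm
    have h3 := h1.union h2
    rwa [inter_union_sdiff] at h3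
  rw [setIntegral_pos_iff_support_of_nonneg_ae
    (Eventually.of_forall fun w => bumpE_nonneg κ _) hint]
  have h4 := reg_pos hzR (hSo.inter (isOpen_cube r)) (show z ∈ S ∩ cube r from ⟨hpos.ne', hzr⟩)
  refine lt_of_lt_of_le h4 (measure_mono ?_)
  rintro w ⟨hw1, hw2, hw3⟩
  exact ⟨hw2, cube_subset_cell hr hw3, hw1⟩

lemma integ_tf_zero {A : Set Torus} {κ : ℝ} {q : ℂ × ℂ}
    (h : ∀ w ∈ cell, w ∈ Reg A → bumpE κ (w - q) = 0) : integ A (tf κ q) = 0 := by
  rw [integ_tf]
  rw [setIntegral_congr_fun (g := fun _ => (0 : ℝ))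
    (measurableSet_cell.inter (measurableSet_Reg A)) (fun w hw => h w hw.1 hw.2)]
  simp

end Pool.Agent.Helper82.Sullivan
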