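import Pool.Agent.Helper82.Sullivan.Int

/-!
# Local structure: no analytic curve near the vertex inside the support of `T`
-/

open MeasureTheory Set Filter Topology
open scoped ContDiff NNReal ENNReal

namespace Pool.Agent.Helper82.Sullivan

/-- complex functional vanishing on `dir j` -/
noncomputable def nC : Fin 3 → ((ℂ × ℂ) →L[ℂ] ℂ) :=
  ![crd 0 - crd 1, crd 0 + (2 : ℂ) • crd 1, crd 1 + (2 : ℂ) • crd 0]

lemma crd_zero (z : ℂ × ℂ) : crd 0 z = z.1 := rfl
lemma crd_one (z : ℂ × ℂ) : crd 1 z = z.2 := rfl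

/-- coordinate along `dir j` (equal to `1/3` on `dir j`) -/
noncomputable def tC : Fin 3 → ((ℂ × ℂ) →L[ℂ] ℂ) := ![crd 0, crd 1, crd 0]

lemma nC_dir (j : Fin 3) : nC j (dir j) = 0 := by
  fin_cases j
  · simp [nC, crd_zero, crd_one, dir]
  · simp [nC, crd_zero, crd_one, dir]; ring
  · simp [nC, crd_zero, crd_one, dir]; ring

lemma tC_dir (j : Fin 3) : tC j (dir j) = 1 / 3 := by
  fin_cases j
  · simp [tC, crd_zero, crd_one, dir]
  · simp [tC, crd_zero, crd_one, dir]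
  · simp [tC, crd_zero, crd_one, dir]

lemma eq_smul_dir (j : Fin 3) {v : ℂ × ℂ} (h : nC j v = 0) : v = (3 * tC j v) • dir j := by
  fin_cases j
  · have h' : v.1 - v.2 = 0 := h
    apply Prod.ext
    · simp [tC, crd_zero, crd_one, dir]
      ring
    · simp [tC, crd_zero, crd_one, dir]
      linear_combination -h'
  · have h' : v.1 + 2 * v.2 = 0 := h
    apply Prod.ext
    · simp [tC, crd_zero, crd_one, dir]
      linear_combination h'
    · simp [tC, crd_zero, crd_one, dir]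
      ring
  · have h' : v.2 + 2 * v.1 = 0 := h
    apply Prod.ext
    · simp [tC, crd_zero, crd_one, dir]
      ring
    · simp [tC, crd_zero, crd_one, dir]
      linear_combination h'

/-- the three rays times the imaginary directions -/
def Ray (j : Fin 3) : Set (ℂ × ℂ) := {z | (nC j z).re = 0 ∧ 0 ≤ (tC j z).re}

lemma mem_Ray {j : Fin 3} {z : ℂ × ℂ} : z ∈ Ray j ↔ (nC j z).re = 0 ∧ 0 ≤ (tC j z).re := Iff.rfl

lemma isClosed_Ray (j : Fin 3) : IsClosed (Ray j) := by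
  have h1 : Continuous fun z : ℂ × ℂ => (nC j z).re := Complex.continuous_re.comp (nC j).continuous
  have h2 : Continuous fun z : ℂ × ℂ => (tC j z).re := Complex.continuous_re.comp (tC j).continuous
  exact (isClosed_eq h1 continuous_const).inter (isClosed_le continuous_const h2)

/-- union of the rays -/
def Rays : Set (ℂ × ℂ) := Ray 0 ∪ Ray 1 ∪ Ray 2

lemma isClosed_Rays : IsClosed Rays :=
  ((isClosed_Ray 0).union (isClosed_Ray 1)).union (isClosed_Ray 2)

lemma mem_Rays {z : ℂ × ℂ} : z ∈ Rays ↔ ∃ j, z ∈ Ray j := by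
  constructor
  · rintro ((h | h) | h)
    exacts [⟨0, h⟩, ⟨1, h⟩, ⟨2, h⟩]
  · rintro ⟨j, h⟩
    fin_cases j
    exacts [Or.inl (Or.inl h), Or.inl (Or.inr h), Or.inr h]

lemma not_mem_Rays_neg {z : ℂ × ℂ} (j : Fin 3) {τ : ℝ} (hτ : 0 < τ)
    (h0 : reC 0 z = -τ * dirc j 0) (h1 : reC 1 z = -τ * dirc j 1) : z ∉ Rays := by
  rw [reC_zero] at h0
  rw [reC_one] at h1
  rw [mem_Rays]
  rintro ⟨i, hi⟩
  rw [mem_Ray] at hi
  obtain ⟨h2, h3⟩ := hi
  fin_cases j <;> fin_cases i <;>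
    simp [nC, tC, crd_zero, crd_one, dirc, h0, h1] at h2 h3 h0 h1 <;> linarith


/-- a nonempty open set covered by three closed sets: one of them has nonempty interior -/
lemma three_closed {C0 C1 C2 : Set ℂ} (h0 : IsClosed C0) (h1 : IsClosed C1)
    (h : (interior (C0 ∪ C1 ∪ C2)).Nonempty) :
    (interior C0).Nonempty ∨ (interior C1).Nonempty ∨ (interior C2).Nonempty := by
  by_contra hcon
  push Not at hcon
  obtain ⟨e0, e1, e2⟩ := hcon
  have h3 : interior (C0 ∪ C1 ∪ C2) = interior (C0 ∪ C1) :=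
    interior_union_isClosed_of_interior_empty (h0.union h1) e2
  have h4 : interior (C0 ∪ C1) = interior C0 :=
    interior_union_isClosed_of_interior_empty h0 e1
  rw [h3, h4, e0] at h
  exact Set.not_nonempty_empty h

/-- accumulation of points of the analytic set on a complex line at a point over `U` implies that
the line is locally contained in it -/
lemma line_eventually {U A : Set Torus} (hA : IsAnalyticIn U A) (z v : ℂ × ℂ) (η : ℂ)
    (hU : proj (z + η • v) ∈ U)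
    (hfreq : ∃ᶠ ξ in 𝓝[≠] η, proj (z + ξ • v) ∈ A) :
    ∀ᶠ ξ in 𝓝 η, proj (z + ξ • v) ∈ A := by
  obtain ⟨W, hWo, hzW, m, f, hf, hW⟩ := hA.2 _ hU
  have hcont : Continuous fun ξ : ℂ => z + ξ • v := by fun_prop
  have hWev : ∀ᶠ ξ in 𝓝 η, z + ξ • v ∈ W := hcont.continuousAt.eventually_mem (hWo.mem_nhds hzW)
  have han : ∀ j, AnalyticAt ℂ (fun ξ : ℂ => f j (z + ξ • v)) η := by
    intro j
    have h1 : AnalyticAt ℂ (f j) (z + η • v) := hf j _ hzW
    have h2 : AnalyticAt ℂ (fun ξ : ℂ => z + ξ • v) η := by fun_prop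
    exact h1.comp_of_eq h2 rfl
  have hzero : ∀ j, ∀ᶠ ξ in 𝓝 η, f j (z + ξ • v) = 0 := by
    intro j
    rw [← (han j).frequently_zero_iff_eventually_zero]
    refine (hfreq.and_eventually (nhdsWithin_le_nhds hWev)).mono ?_
    rintro ξ ⟨h1, h2⟩
    exact (hW _ h2).1 h1 j
  filter_upwards [hWev, eventually_all.2 hzero] with ξ h1 h2
  exact (hW _ h1).2 h2

lemma convex_cube (r : ℝ) : Convex ℝ (cube r) := by
  intro x hx y hy a b ha hb hab
  rw [mem_cube] at *
  intro k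
  have hx1 := hx k
  have hy1 := hy k
  rw [abs_lt, abs_lt] at hx1 hy1
  rw [map_add, map_smul, map_smul, map_add, map_smul, map_smul, abs_lt, abs_lt]
  simp only [smul_eq_mul]
  rcases eq_or_lt_of_le ha with h | h
  · subst h
    have : b = 1 := by linarith
    subst this
    simp only [zero_mul, zero_add, one_mul]
    exact hy1
  · refine ⟨⟨?_, ?_⟩, ⟨?_, ?_⟩⟩ <;> nlinarith [hx1.1.1, hx1.1.2, hx1.2.1, hx1.2.2, hy1.1.1, hy1.1.2,
      hy1.2.1, hy1.2.2]

/-- analytic continuation along a complex line inside the cube -/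
lemma line_all {U A : Set Torus} (hA : IsAnalyticIn U A) {r : ℝ}
    (hU : ∀ z ∈ cube r, proj z ∈ U) (z v : ℂ × ℂ) (hz : z ∈ cube r)
    (hfreq : ∃ᶠ ξ in 𝓝[≠] (0 : ℂ), proj (z + ξ • v) ∈ A) :
    ∀ η : ℂ, z + η • v ∈ cube r → proj (z + η • v) ∈ A := by
  set Ω : Set ℂ := {η | z + η • v ∈ cube r} with hΩ
  set P : Set ℂ := {η | ∀ᶠ ξ in 𝓝 η, proj (z + ξ • v) ∈ A} with hP
  have hPo : IsOpen P := isOpen_setOfPred_eventually_nhds
  have hconv : Convex ℝ Ω := by
    intro x hx y hy a b ha hb hab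
    have h1 := convex_cube r hx hy ha hb hab
    have e : a • (z + x • v) + b • (z + y • v) = z + (a • x + b • y) • v := by
      have : z = (a + b) • z := by rw [hab, one_smul]
      conv_rhs => rw [this]
      rw [smul_add, smul_add, add_smul, add_smul, smul_assoc, smul_assoc]
      abel
    rw [e] at h1
    exact h1
  have h0 : (0 : ℂ) ∈ P := by
    refine line_eventually hA z v 0 ?_ hfreq
    rw [zero_smul, add_zero]
    exact hU z hz
  have h0Ω : (0 : ℂ) ∈ Ω := by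
    change z + (0 : ℂ) • v ∈ cube r
    rw [zero_smul, add_zero]; exact hz
  have hsub : Ω ⊆ P := by
    refine hconv.isPreconnected.subset_of_closure_inter_subset hPo ⟨0, h0Ω, h0⟩ ?_
    rintro η ⟨h1, h2⟩
    by_cases hη : η ∈ P
    · exact hη
    refine line_eventually hA z v η (hU _ h2) ?_
    rw [mem_closure_iff_frequently] at h1
    rw [frequently_nhdsWithin_iff]
    refine h1.mono ?_
    intro ξ hξ
    refine ⟨?_, ?_⟩
    · exact hξ.self_of_nhds
    · intro h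
      rw [mem_singleton_iff] at h
      rw [h] at hξ
      exact hη hξ
  intro η hη
  exact (hsub hη).self_of_nhds


/-- Holomorphic disc through a regular point. -/
lemma exists_disc {A : Set Torus} {z : ℂ × ℂ} (hz : z ∈ Reg A) {O : Set (ℂ × ℂ)} (hO : IsOpen O)
    (hzO : z ∈ O) : ∃ (ρ : ℝ) (γ : ℂ → (ℂ × ℂ)), 0 < ρ ∧ γ 0 = z ∧
      DifferentiableOn ℂ γ (Metric.ball 0 ρ) ∧ InjOn γ (Metric.ball 0 ρ) ∧
      ∀ ζ ∈ Metric.ball (0 : ℂ) ρ, γ ζ ∈ Reg A ∧ γ ζ ∈ O := by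
  obtain ⟨hzA, ψ, hzψ, h1, h2, h3⟩ := mem_Reg_iff.1 hz
  have hw0 : ψ z ∈ ψ.target := ψ.map_source hzψ
  have hz1 : (ψ z).2 = 0 := (h3 z hzψ).1 hzA
  have hpre : ψ.symm ⁻¹' O ∈ 𝓝 (ψ z) := by
    apply (ψ.continuousAt_symm hw0).preimage_mem_nhds
    rw [ψ.left_inv hzψ]
    exact hO.mem_nhds hzO
  have hnhds : ψ.symm ⁻¹' O ∩ ψ.target ∈ 𝓝 (ψ z) :=
    inter_mem hpre (ψ.open_target.mem_nhds hw0)
  obtain ⟨ρ, hρ, hball⟩ := Metric.mem_nhds_iff.1 hnhds
  have hlb : ∀ ζ ∈ Metric.ball (0 : ℂ) ρ, line (ψ z) ζ ∈ ψ.symm ⁻¹' O ∩ ψ.target := by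
    intro ζ hζ
    apply hball
    rw [Metric.mem_ball]
    have h5 := (line_isometry (ψ z)).dist_eq ζ 0
    rw [line_zero] at h5
    rw [h5]
    exact hζ
  refine ⟨ρ, fun ζ => ψ.symm (line (ψ z) ζ), hρ, ?_, ?_, ?_, ?_⟩
  · simp only [line_zero]
    exact ψ.left_inv hzψ
  · intro ζ hζ
    have h6 : DifferentiableAt ℂ ψ.symm (line (ψ z) ζ) := (h2 _ (hlb ζ hζ).2).differentiableAt
    have h7 : DifferentiableAt ℂ (line (ψ z)) ζ := by
      unfold line
      fun_prop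
    exact (h6.comp ζ h7).differentiableWithinAt
  · intro a ha b hb hab
    have h6 := ψ.symm.injOn (hlb a ha).2 (hlb b hb).2 hab
    exact (line_isometry (ψ z)).injective h6
  · intro ζ hζ
    obtain ⟨h6, h7⟩ := hlb ζ hζ
    refine ⟨mem_Reg_iff.2 ⟨?_, ψ, ψ.map_target h7, h1, h2, h3⟩, h6⟩
    rw [h3 _ (ψ.map_target h7), ψ.right_inv h7]
    exact hz1

/-- If the regular points of `A` in the cube lie on the rays, then `A` contains locally a complex
line in one of the directions `dir j` through a point on a ray. -/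
lemma exists_line {A : Set Torus} {z : ℂ × ℂ} (hz : z ∈ Reg A) {r : ℝ} (hzr : z ∈ cube r)
    (hray : ∀ w ∈ cube r, w ∈ Reg A → w ∈ Rays) :
    ∃ (j : Fin 3) (z₁ : ℂ × ℂ), z₁ ∈ cube r ∧ z₁ ∈ Ray j ∧
      ∃ᶠ ξ in 𝓝[≠] (0 : ℂ), proj (z₁ + ξ • dir j) ∈ A := by
  obtain ⟨ρ, γ, hρ, hγ0, hγd, hγi, hγ⟩ := exists_disc hz (isOpen_cube r) hzr
  have hγc : ContinuousOn γ (Metric.closedBall 0 (ρ / 2)) :=
    hγd.continuousOn.mono (Metric.closedBall_subset_ball (by linarith))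
  set C : Fin 3 → Set ℂ := fun j => Metric.closedBall (0 : ℂ) (ρ / 2) ∩ γ ⁻¹' (Ray j) with hC
  have hCc : ∀ j, IsClosed (C j) := fun j =>
    hγc.preimage_isClosed_of_isClosed Metric.isClosed_closedBall (isClosed_Ray j)
  have hcover : Metric.ball (0 : ℂ) (ρ / 2) ⊆ C 0 ∪ C 1 ∪ C 2 := by
    intro ζ hζ
    have hζ' : ζ ∈ Metric.closedBall (0 : ℂ) (ρ / 2) := Metric.ball_subset_closedBall hζ
    have hζρ : ζ ∈ Metric.ball (0 : ℂ) ρ := Metric.ball_subset_ball (by linarith) hζ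
    obtain ⟨h1, h2⟩ := hγ ζ hζρ
    rcases hray _ h2 h1 with (h | h) | h
    exacts [Or.inl (Or.inl ⟨hζ', h⟩), Or.inl (Or.inr ⟨hζ', h⟩), Or.inr ⟨hζ', h⟩]
  have hne : (interior (C 0 ∪ C 1 ∪ C 2)).Nonempty :=
    ⟨0, interior_maximal hcover Metric.isOpen_ball (Metric.mem_ball_self (by linarith))⟩
  obtain ⟨j, hj⟩ : ∃ j, (interior (C j)).Nonempty := by
    rcases three_closed (hCc 0) (hCc 1) hne with h | h | h
    exacts [⟨0, h⟩, ⟨1, h⟩, ⟨2, h⟩]
  obtain ⟨ζ₁, hζ₁⟩ := hj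
  obtain ⟨ε, hε, hball⟩ := Metric.isOpen_iff.1 isOpen_interior ζ₁ hζ₁
  have hball' : Metric.ball ζ₁ ε ⊆ C j := hball.trans interior_subset
  have hsubρ : Metric.ball ζ₁ ε ⊆ Metric.ball 0 ρ := fun ζ hζ =>
    Metric.closedBall_subset_ball (by linarith) (hball' hζ).1
  -- the functional is constant
  have hga : AnalyticOnNhd ℂ (fun ζ => nC j (γ ζ)) (Metric.ball ζ₁ ε) := by
    apply DifferentiableOn.analyticOnNhd _ Metric.isOpen_ball
    exact (nC j).differentiable.comp_differentiableOn (hγd.mono hsubρ)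
  obtain ⟨c, hc⟩ := hga.eq_const_of_re_eq_const (c₀ := 0) (fun ζ hζ => (hball' hζ).2.1)
    Metric.isOpen_ball ((Metric.isConnected_ball hε))
  have hζ₁b : ζ₁ ∈ Metric.ball ζ₁ ε := Metric.mem_ball_self hε
  refine ⟨j, γ ζ₁, (hγ ζ₁ (hsubρ hζ₁b)).2, (hball' hζ₁b).2, ?_⟩
  set e : ℂ → ℂ := fun ζ => 3 * tC j (γ ζ - γ ζ₁) with he
  have heq : ∀ ζ ∈ Metric.ball ζ₁ ε, γ ζ = γ ζ₁ + e ζ • dir j := by
    intro ζ hζ
    have h1 : nC j (γ ζ - γ ζ₁) = 0 := by
      rw [map_sub]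
      have h2 := hc ζ hζ
      have h3 := hc ζ₁ hζ₁b
      rw [h2, h3, sub_self]
    have h4 := eq_smul_dir j h1
    rw [← sub_eq_iff_eq_add']
    exact h4
  have hec : Tendsto e (𝓝[≠] ζ₁) (𝓝[≠] 0) := by
    rw [tendsto_nhdsWithin_iff]
    constructor
    · have h1 : ContinuousAt e ζ₁ := by
        have h2 : ContinuousAt γ ζ₁ :=
          (hγd.continuousOn).continuousAt (Metric.isOpen_ball.mem_nhds (hsubρ hζ₁b))
        have h3 : ContinuousAt (fun ζ => γ ζ - γ ζ₁) ζ₁ := h2.sub continuousAt_const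
        have h4 : ContinuousAt (fun ζ => tC j (γ ζ - γ ζ₁)) ζ₁ :=
          (tC j).continuous.continuousAt.comp h3
        exact continuousAt_const.mul h4
      have h5 : e ζ₁ = 0 := by simp [he]
      have h6 : Tendsto e (𝓝 ζ₁) (𝓝 (e ζ₁)) := h1
      rw [h5] at h6
      exact h6.mono_left nhdsWithin_le_nhds
    · have hmem : Metric.ball ζ₁ ε ∈ 𝓝[≠] ζ₁ :=
        nhdsWithin_le_nhds (Metric.isOpen_ball.mem_nhds hζ₁b)
      filter_upwards [hmem, self_mem_nhdsWithin] with ζ h1 h2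
      intro h0
      have h0' : e ζ = 0 := h0
      have h7 := heq ζ h1
      rw [h0', zero_smul, add_zero] at h7
      exact h2 (hγi (hsubρ h1) (hsubρ hζ₁b) h7)
  refine hec.frequently ?_
  have hmem : Metric.ball ζ₁ ε ∈ 𝓝[≠] ζ₁ :=
    nhdsWithin_le_nhds (Metric.isOpen_ball.mem_nhds hζ₁b)
  apply Eventually.frequently
  filter_upwards [hmem] with ζ hζ
  rw [← heq ζ hζ]
  exact (hγ ζ (hsubρ hζ)).1.1

/-- There is no pure one-dimensional analytic subset having regular points near the vertex, all of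
them on the rays. -/
theorem no_reg {U A : Set Torus} (hA : IsAnalyticIn U A)
    (hpure : ∀ z : ℂ × ℂ, proj z ∈ A → z ∈ closure (Reg A)) {r : ℝ}
    (hU : ∀ z ∈ cube r, proj z ∈ U)
    (hray : ∀ w ∈ cube r, w ∈ Reg A → w ∈ Rays) :
    ∀ z ∈ cube r, z ∉ Reg A := by
  intro z hz hzR
  obtain ⟨j, z₁, h1, h2, h3⟩ := exists_line hzR hz hray
  have hall := line_all hA hU z₁ (dir j) h1 h3
  -- coordinates of `z₁`
  set t : ℝ := (tC j z₁).re with ht
  have ht0 : 0 ≤ t := h2.2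
  have hre : reC 0 z₁ = 3 * t * dirc j 0 ∧ reC 1 z₁ = 3 * t * dirc j 1 := by
    have h4 := h2.1
    rw [ht, reC_zero, reC_one]
    fin_cases j
    · simp [nC, tC, crd_zero, crd_one, dirc] at h4 ⊢
      constructor <;> linarith
    · simp [nC, tC, crd_zero, crd_one, dirc] at h4 ⊢
      constructor <;> linarith
    · simp [nC, tC, crd_zero, crd_one, dirc] at h4 ⊢
      constructor <;> linarith
  have hr : 0 < r := lt_of_le_of_lt (abs_nonneg _) (mem_cube.1 h1 0).1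
  set τ : ℝ := r / 2 with hτ
  have hτ0 : 0 < τ := by rw [hτ]; linarith
  set η : ℂ := ((-(3 * t + τ) : ℝ) : ℂ) with hη
  set zs : ℂ × ℂ := z₁ + η • dir j with hzs
  have hdir : ∀ k, reC k (dir j) = dirc j k ∧ imC k (dir j) = 0 := by
    intro k
    fin_cases j <;> fin_cases k <;>
      simp [dir, dirc, reC_zero, reC_one, imC_zero, imC_one]
  have hzs_eq : zs = z₁ + (-(3 * t + τ)) • dir j := by
    rw [hzs, hη]
    congr 1
  have hsre : ∀ k, reC k zs = reC k z₁ - (3 * t + τ) * dirc j k := by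
    intro k
    rw [hzs_eq, map_add, map_smul, (hdir k).1, smul_eq_mul]; ring
  have hsim : ∀ k, imC k zs = imC k z₁ := by
    intro k
    rw [hzs_eq, map_add, map_smul, (hdir k).2, smul_zero, add_zero]
  have hs0 : reC 0 zs = -τ * dirc j 0 := by rw [hsre, hre.1]; ring
  have hs1 : reC 1 zs = -τ * dirc j 1 := by rw [hsre, hre.2]; ring
  have hdc : ∀ k, |dirc j k| ≤ 1 := by
    intro k
    rw [abs_le]
    fin_cases j <;> fin_cases k <;> simp [dirc] <;> norm_num
  have hsk : ∀ k, reC k zs = -τ * dirc j k := by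
    intro k
    fin_cases k
    exacts [hs0, hs1]
  have hzs_cube : zs ∈ cube r := by
    rw [mem_cube]
    intro k
    refine ⟨?_, ?_⟩
    · rw [hsk, abs_mul, abs_neg, abs_of_pos hτ0]
      calc τ * |dirc j k| ≤ τ * 1 := mul_le_mul_of_nonneg_left (hdc k) hτ0.le
        _ < r := by rw [hτ]; linarith
    · rw [hsim]
      exact (mem_cube.1 h1 k).2
  have hzs_rays : zs ∉ Rays := not_mem_Rays_neg j hτ0 hs0 hs1
  have hzsA : proj zs ∈ A := hall η hzs_cube
  have hopen : IsOpen (cube r ∩ Raysᶜ) := (isOpen_cube r).inter isClosed_Rays.isOpen_compl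
  have hcl := hpure zs hzsA
  rw [mem_closure_iff] at hcl
  obtain ⟨w, ⟨hw1, hw2⟩, hw3⟩ := hcl _ hopen ⟨hzs_cube, hzs_rays⟩
  exact hw2 (hray w hw1 hw3)

end Pool.Agent.Helper82.Sullivan
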