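import Pool.Agent.Helper82.Sullivan.Local

/-!
# The current `T` is not an average of subvarieties near the vertex
-/

open MeasureTheory Set Filter Topology TopologicalSpace
open scoped ContDiff NNReal ENNReal

namespace Pool.Agent.Helper82.Sullivan

lemma reC_gam (j : Fin 3) (p : Fin 3 → ℝ) (k : Fin 2) : reC k (gam j p) = p 0 * dirc j k := by
  rw [gam_apply]
  fin_cases j <;> fin_cases k <;> simp [dir, dirc, bas, reC_zero, reC_one]

lemma gam_ray {j : Fin 3} {p : Fin 3 → ℝ} (hp : p ∈ Icc (0 : Fin 3 → ℝ) 1) {r : ℝ}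
    (hr : r ≤ 1 / 3) {z : ℂ × ℂ} (hz : z ∈ cube r) (h : proj (gam j p) = proj z) : z ∈ Ray j := by
  rw [proj_eq_iff] at h
  obtain ⟨a0, b0, h0, -⟩ := lat_coord h 0
  obtain ⟨a1, b1, h1, -⟩ := lat_coord h 1
  rw [map_sub, reC_gam] at h0 h1
  have hp0 : 0 ≤ p 0 := hp.1 0
  have hp1 : p 0 ≤ 1 := hp.2 0
  have hz0 := (mem_cube.1 hz 0).1
  have hz1 := (mem_cube.1 hz 1).1
  rw [abs_lt] at hz0 hz1
  rw [mem_Ray]
  fin_cases j
  · have e0 : a0 = 0 := by
      simp [dirc] at h0
      have h2 : (-1 : ℝ) < (a0 : ℝ) := by linarith [hz0.1, hz0.2]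
      have h3 : (a0 : ℝ) < 1 := by linarith [hz0.1, hz0.2]
      have h2' : -1 < a0 := by exact_mod_cast h2
      have h3' : a0 < 1 := by exact_mod_cast h3
      omega
    have e1 : a1 = 0 := by
      simp [dirc] at h1
      have h2 : (-1 : ℝ) < (a1 : ℝ) := by linarith [hz1.1, hz1.2]
      have h3 : (a1 : ℝ) < 1 := by linarith [hz1.1, hz1.2]
      have h2' : -1 < a1 := by exact_mod_cast h2
      have h3' : a1 < 1 := by exact_mod_cast h3
      omega
    rw [e0] at h0
    rw [e1] at h1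
    rw [reC_zero] at h0
    rw [reC_one] at h1
    simp [dirc] at h0 h1
    simp [nC, tC, crd_zero, crd_one]
    constructor <;> linarith
  · have e1 : a1 = 0 := by
      simp [dirc] at h1
      have h2 : (-1 : ℝ) < (a1 : ℝ) := by linarith [hz1.1, hz1.2]
      have h3 : (a1 : ℝ) < 1 := by linarith [hz1.1, hz1.2]
      have h2' : -1 < a1 := by exact_mod_cast h2
      have h3' : a1 < 1 := by exact_mod_cast h3
      omega
    have e0 : a0 = 0 := by
      rw [e1] at h1
      simp [dirc] at h0 h1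
      have h2 : (-1 : ℝ) < (a0 : ℝ) := by linarith [hz0.1, hz0.2]
      have h3 : (a0 : ℝ) < 1 := by linarith [hz0.1, hz0.2, hz1.1, hz1.2]
      have h2' : -1 < a0 := by exact_mod_cast h2
      have h3' : a0 < 1 := by exact_mod_cast h3
      omega
    rw [e0] at h0
    rw [e1] at h1
    rw [reC_zero] at h0
    rw [reC_one] at h1
    simp [dirc] at h0 h1
    simp [nC, tC, crd_zero, crd_one]
    constructor <;> linarith
  · have e0 : a0 = 0 := by
      simp [dirc] at h0
      have h2 : (-1 : ℝ) < (a0 : ℝ) := by linarith [hz0.1, hz0.2]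
      have h3 : (a0 : ℝ) < 1 := by linarith [hz0.1, hz0.2]
      have h2' : -1 < a0 := by exact_mod_cast h2
      have h3' : a0 < 1 := by exact_mod_cast h3
      omega
    have e1 : a1 = 0 := by
      rw [e0] at h0
      simp [dirc] at h0 h1
      have h2 : (-1 : ℝ) < (a1 : ℝ) := by linarith [hz1.1, hz1.2]
      have h3 : (a1 : ℝ) < 1 := by linarith [hz0.1, hz0.2, hz1.1, hz1.2]
      have h2' : -1 < a1 := by exact_mod_cast h2
      have h3' : a1 < 1 := by exact_mod_cast h3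
      omega
    rw [e0] at h0
    rw [e1] at h1
    rw [reC_zero] at h0
    rw [reC_one] at h1
    simp [dirc] at h0 h1
    simp [nC, tC, crd_zero, crd_one]
    constructor <;> linarith

lemma intd_tf (κ : ℝ) (q : ℂ × ℂ) (j : Fin 3) (p : Fin 3 → ℝ) :
    intd (tf κ q) j p = bumpE κ (gam j p - q) * (‖(dir j).1‖ ^ 2 + ‖(dir j).2‖ ^ 2) :=
  tf_apply κ q _ _

lemma T_tf_zero {κ : ℝ} {q : ℂ × ℂ} {r : ℝ} (hr : r ≤ 1 / 3)
    (h : ∀ w : ℂ × ℂ, bumpE κ (w - q) ≠ 0 → ∃ l ∈ Lat, w + l ∈ cube r ∩ Raysᶜ) :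
    T (tf κ q) = 0 := by
  unfold T
  refine Finset.sum_eq_zero fun j _ => ?_
  have : ∀ p ∈ Icc (0 : Fin 3 → ℝ) 1, intd (tf κ q) j p = 0 := by
    intro p hp
    rw [intd_tf]
    by_contra hne
    obtain ⟨l, hl, h1, h2⟩ := h _ (left_ne_zero_of_mul hne)
    apply h2
    rw [mem_Rays]
    exact ⟨j, gam_ray hp hr h1 (proj_add_lat _ hl).symm⟩
  rw [setIntegral_congr_fun (g := fun _ => (0 : ℝ)) measurableSet_Icc this]
  simp

lemma T_tf_pos {κ : ℝ} (h : κ < 1) : 0 < T (tf κ 0) := by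
  unfold T
  have hnn : ∀ j p, 0 ≤ intd (tf κ 0) j p := by
    intro j p
    rw [intd_tf]
    exact mul_nonneg (bumpE_nonneg _ _) (by positivity)
  refine Finset.sum_pos' (fun j _ => integral_nonneg fun p => hnn j p) ⟨0, Finset.mem_univ _, ?_⟩
  rw [setIntegral_pos_iff_support_of_nonneg_ae (Eventually.of_forall fun p => hnn 0 p)
    (continuous_intd (tf_isForm2 κ 0) 0).integrableOn_Icc]
  have hS : IsOpen {p : Fin 3 → ℝ | intd (tf κ 0) 0 p ≠ 0} :=
    isOpen_ne_fun (continuous_intd (tf_isForm2 κ 0) 0) continuous_const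
  have h0 : (0 : Fin 3 → ℝ) ∈ {p : Fin 3 → ℝ | intd (tf κ 0) 0 p ≠ 0} := by
    change intd (tf κ 0) 0 0 ≠ 0
    rw [intd_tf]
    have h1 : gam 0 (0 : Fin 3 → ℝ) - 0 = 0 := by simp
    rw [h1]
    apply mul_ne_zero (bumpE_zero_pos h).ne'
    have h2 : (dir 0).1 ≠ 0 := by simp [dir]
    have h3 := norm_pos_iff.2 h2
    positivity
  obtain ⟨ε, hε, hball⟩ := Metric.isOpen_iff.1 hS 0 h0
  set δ : ℝ := min (ε / 2) (1 / 2) with hδ
  have hδ0 : 0 < δ := lt_min (by linarith) (by norm_num)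
  set V : Set (Fin 3 → ℝ) := Metric.ball 0 ε ∩ Set.pi univ (fun _ => Ioo (0 : ℝ) 1) with hV
  have hVo : IsOpen V := Metric.isOpen_ball.inter (isOpen_set_pi finite_univ fun _ _ => isOpen_Ioo)
  have hVne : V.Nonempty := by
    refine ⟨fun _ => δ, ?_, ?_⟩
    · rw [mem_ball_zero_iff, pi_norm_lt_iff hε]
      intro i
      rw [Real.norm_of_nonneg hδ0.le]
      exact (min_le_left _ _).trans_lt (by linarith)
    · intro i _
      exact ⟨hδ0, (min_le_right _ _).trans_lt (by norm_num)⟩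
  refine lt_of_lt_of_le (hVo.measure_pos volume hVne) (measure_mono ?_)
  rintro p ⟨hp1, hp2⟩
  refine ⟨hball hp1, ?_, ?_⟩
  · intro i; exact (hp2 i (mem_univ i)).1.le
  · intro i; exact (hp2 i (mem_univ i)).2.le


/-- the parameters `κ` of the countable family -/
noncomputable def kap (m : ℕ) : ℝ := 1 - 1 / ((m : ℝ) + 1)

lemma kap_lt_one (m : ℕ) : kap m < 1 := by
  unfold kap
  have : (0 : ℝ) < 1 / ((m : ℝ) + 1) := by positivity
  linarith

lemma exists_kap {ε : ℝ} (hε : 0 < ε) : ∃ m : ℕ, (1 - kap m) / 2 < ε ^ 2 := by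
  obtain ⟨m, hm⟩ := exists_nat_gt (1 / ε ^ 2)
  refine ⟨m, ?_⟩
  unfold kap
  have h1 : 0 < ε ^ 2 := by positivity
  have h2 : 1 / ((m : ℝ) + 1) < ε ^ 2 := by
    rw [div_lt_iff₀ (by positivity)]
    rw [div_lt_iff₀ h1] at hm
    nlinarith
  have h3 : (0 : ℝ) < 1 / ((m : ℝ) + 1) := by positivity
  linarith

/-- if the cube points of `kbox` lie within `ε` -/
lemma norm_lt_of_kbox {κ ε : ℝ} (hε : 0 < ε) (h : (1 - κ) / 2 < ε ^ 2) {z : ℂ × ℂ}
    (hz : z ∈ kbox κ) : ‖z - near z‖ < ε := by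
  have h1 := kbox_near hz
  exact lt_of_pow_lt_pow_left₀ 2 hε.le (h1.trans_lt h)

theorem not_average {U : Set Torus} (hUo : IsOpen U) (h0U : proj 0 ∈ U) : ¬ IsAverageOn T U := by
  rintro ⟨ν, hν⟩
  -- choice of the cube
  have hpreo : IsOpen (proj ⁻¹' U) := hUo.preimage continuous_proj
  obtain ⟨ρ, hρ, hρU⟩ := Metric.isOpen_iff.1 hpreo 0 h0U
  set r : ℝ := min (ρ / 4) (1 / 4) with hr
  have hr0 : 0 < r := lt_min (by linarith) (by norm_num)
  have hr3 : r ≤ 1 / 3 := (min_le_right _ _).trans (by norm_num)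
  have hr2 : r ≤ 1 / 2 := (min_le_right _ _).trans (by norm_num)
  have hcubeU : ∀ z ∈ cube r, proj z ∈ U := by
    intro z hz
    apply hρU
    rw [mem_ball_zero_iff]
    have h1 := mem_cube.1 hz 0
    have h2 := mem_cube.1 hz 1
    have h3 : ‖z‖ ^ 2 < ρ ^ 2 := by
      refine (sq_norm_le z).trans_lt ?_
      have hsq : ∀ x : ℝ, |x| < r → x ^ 2 < r ^ 2 := fun x hx => by
        rw [← sq_abs]; exact pow_lt_pow_left₀ hx (abs_nonneg x) two_ne_zero
      have h4 := hsq _ h1.1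
      have h5 := hsq _ h1.2
      have h6 := hsq _ h2.1
      have h7 := hsq _ h2.2
      have h8 : r ≤ ρ / 4 := min_le_left _ _
      nlinarith
    exact lt_of_pow_lt_pow_left₀ 2 hρ.le h3
  -- the integral of a nonnegative function vanishes
  have hvanish : ∀ (κ : ℝ) (q : ℂ × ℂ), SupportedIn (tf κ q) U → T (tf κ q) = 0 →
      ∀ᵐ V ∂ν, integ V.1 (tf κ q) = 0 := by
    intro κ q hs hT
    obtain ⟨hint, heq⟩ := hν (tf κ q) (tf_isForm2 κ q) hs
    rw [hT] at heq
    have h1 := (integral_eq_zero_iff_of_nonneg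
      (fun V : Subvar U => integ_tf_nonneg V.1 κ q) hint).1 heq.symm
    exact h1
  -- good indices
  set good : ℕ × ℕ → Prop := fun n => ∀ w : ℂ × ℂ, w - denseSeq (ℂ × ℂ) n.1 ∈ kbox (kap n.2) →
    ∃ l ∈ Lat, w + l ∈ cube r ∩ Raysᶜ with hgood
  have hae : ∀ᵐ V ∂ν, ∀ n : ℕ × ℕ, good n → integ V.1 (tf (kap n.2) (denseSeq (ℂ × ℂ) n.1)) = 0 := by
    rw [ae_all_iff]
    intro n
    by_cases hn : good n
    · have hsupp : SupportedIn (tf (kap n.2) (denseSeq (ℂ × ℂ) n.1)) U := by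
        apply tf_supportedIn
        intro z hz
        obtain ⟨l, hl, h1, -⟩ := hn z hz
        rw [← proj_add_lat z hl]
        exact hcubeU _ h1
      have hT : T (tf (kap n.2) (denseSeq (ℂ × ℂ) n.1)) = 0 :=
        T_tf_zero hr3 fun w hw => hn w (bumpE_ne_zero hw)
      filter_upwards [hvanish _ _ hsupp hT] with V hV _ using hV
    · exact Eventually.of_forall fun V h => absurd h hn
  -- almost every `V` has no regular point in the cube
  have hnoreg : ∀ᵐ V ∂ν, ∀ z ∈ cube r, z ∉ Reg V.1 := by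
    filter_upwards [hae] with V hV
    refine no_reg V.2.1 (fun z hz => V.2.2.1 z hz) hcubeU ?_
    intro z hz hzR
    by_contra hzRays
    obtain ⟨B, hBo, hzB, hBfin⟩ := reg_finite hzR
    have hopen : IsOpen (B ∩ (cube r ∩ Raysᶜ)) :=
      hBo.inter ((isOpen_cube r).inter isClosed_Rays.isOpen_compl)
    obtain ⟨ε, hε, hball⟩ := Metric.isOpen_iff.1 hopen z ⟨hzB, hz, hzRays⟩
    obtain ⟨m, hm⟩ := exists_kap (half_pos hε)
    have hcont : Continuous fun q : ℂ × ℂ => bumpE (kap m) (z - q) :=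
      (bumpE_contDiff _).continuous.comp (continuous_const.sub continuous_id)
    have hWo : IsOpen ({q : ℂ × ℂ | bumpE (kap m) (z - q) ≠ 0} ∩ Metric.ball z (ε / 2)) :=
      (isOpen_ne_fun hcont continuous_const).inter Metric.isOpen_ball
    have hWne : ({q : ℂ × ℂ | bumpE (kap m) (z - q) ≠ 0} ∩ Metric.ball z (ε / 2)).Nonempty := by
      refine ⟨z, ?_, Metric.mem_ball_self (half_pos hε)⟩
      change bumpE (kap m) (z - z) ≠ 0
      rw [sub_self]
      exact (bumpE_zero_pos (kap_lt_one m)).ne'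
    obtain ⟨q, ⟨hq1, hq2⟩, ⟨n, rfl⟩⟩ := (denseRange_denseSeq (ℂ × ℂ)).inter_open_nonempty _ hWo hWne
    have hnear : ∀ w : ℂ × ℂ, w - denseSeq (ℂ × ℂ) n ∈ kbox (kap m) →
        w + -near (w - denseSeq (ℂ × ℂ) n) ∈ Metric.ball z ε := by
      intro w hw
      have h1 := norm_lt_of_kbox (half_pos hε) hm hw
      rw [Metric.mem_ball] at hq2 ⊢
      calc dist (w + -near (w - denseSeq (ℂ × ℂ) n)) z
          ≤ dist (w + -near (w - denseSeq (ℂ × ℂ) n)) (denseSeq (ℂ × ℂ) n) + dist (denseSeq (ℂ × ℂ) n) z :=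
            dist_triangle _ _ _
        _ < ε / 2 + ε / 2 := by
            apply add_lt_add _ hq2
            rw [dist_eq_norm]
            have e : w + -near (w - denseSeq (ℂ × ℂ) n) - denseSeq (ℂ × ℂ) n =
              w - denseSeq (ℂ × ℂ) n - near (w - denseSeq (ℂ × ℂ) n) := by abel
            rw [e]
            exact h1
        _ = ε := by ring
    have hg : good (n, m) := by
      intro w hw
      exact ⟨_, Lat.neg_mem (near_mem _), (hball (hnear w hw)).2⟩
    have hpos : 0 < integ V.1 (tf (kap m) (denseSeq (ℂ × ℂ) n)) := by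
      refine integ_tf_pos hr2 hzR hz hBfin ?_ ?_
      · exact lt_of_le_of_ne (bumpE_nonneg _ _) (Ne.symm hq1)
      · intro w hw hne
        have h1 := hball (hnear w (bumpE_ne_zero hne))
        have h2 : w + -near (w - denseSeq (ℂ × ℂ) n) = w := by
          apply cell_unique hw (cube_subset_cell hr2 h1.2.1)
          have e : w + -near (w - denseSeq (ℂ × ℂ) n) - w = -near (w - denseSeq (ℂ × ℂ) n) := by abel
          rw [e]
          exact Lat.neg_mem (near_mem _)
        rw [h2] at h1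
        exact h1.1
    exact absurd (hV (n, m) hg) hpos.ne'
  -- the final test form
  obtain ⟨m, hm⟩ := exists_kap hr0
  have hnear0 : ∀ w : ℂ × ℂ, w - 0 ∈ kbox (kap m) → w + -near w ∈ cube r := by
    intro w hw
    rw [sub_zero] at hw
    apply mem_cube_of_norm_lt
    have h1 := norm_lt_of_kbox hr0 hm hw
    rwa [sub_eq_add_neg] at h1
  have hsupp : SupportedIn (tf (kap m) 0) U := by
    apply tf_supportedIn
    intro z hz
    rw [← proj_add_lat z (Lat.neg_mem (near_mem z))]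
    exact hcubeU _ (hnear0 z hz)
  obtain ⟨-, heq⟩ := hν _ (tf_isForm2 _ _) hsupp
  have hzero : (∫ V : Subvar U, integ V.1 (tf (kap m) 0) ∂ν) = 0 := by
    rw [integral_congr_ae (g := fun _ => (0 : ℝ)), integral_zero]
    filter_upwards [hnoreg] with V hV
    apply integ_tf_zero
    intro w hw hwR
    by_contra hne
    have h1 := hnear0 w (bumpE_ne_zero hne)
    have h2 : w + -near w = w := by
      apply cell_unique hw (cube_subset_cell hr2 h1)
      have e : w + -near w - w = -near w := by abel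
      rw [e]
      exact Lat.neg_mem (near_mem _)
    rw [h2] at h1
    exact hV w h1 hwR
  rw [hzero] at heq
  exact absurd heq (T_tf_pos (kap_lt_one m)).ne'

end Pool.Agent.Helper82.Sullivan
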