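import Pool.Agent.Helper82.Sullivan.Test

/-!
# Regular points
-/

open MeasureTheory Set Filter Topology
open scoped ContDiff NNReal ENNReal

namespace Pool.Agent.Helper82.Sullivan

/-- the set of regular points (upstairs) -/
def Reg (A : Set Torus) : Set (ℂ × ℂ) := {w | IsRegPt A w}

lemma mem_Reg {A : Set Torus} {z : ℂ × ℂ} : z ∈ Reg A ↔ IsRegPt A z := Iff.rfl

/-- a chart straightening `A` -/
def Good (A : Set Torus) (ψ : OpenPartialHomeomorph (ℂ × ℂ) (ℂ × ℂ)) : Prop :=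
  AnalyticOnNhd ℂ ψ ψ.source ∧ AnalyticOnNhd ℂ ψ.symm ψ.target ∧
    ∀ w ∈ ψ.source, (proj w ∈ A ↔ (ψ w).2 = 0)

lemma mem_Reg_iff {A : Set Torus} {z : ℂ × ℂ} : z ∈ Reg A ↔ proj z ∈ A ∧
    ∃ ψ : OpenPartialHomeomorph (ℂ × ℂ) (ℂ × ℂ), z ∈ ψ.source ∧ Good A ψ := Iff.rfl

lemma measurableSet_Reg (A : Set Torus) : MeasurableSet (Reg A) := by
  set O : Set (ℂ × ℂ) := ⋃ (ψ : OpenPartialHomeomorph (ℂ × ℂ) (ℂ × ℂ)) (_ : Good A ψ), ψ.source
    with hO
  have hOo : IsOpen O := isOpen_iUnion fun ψ => isOpen_iUnion fun _ => ψ.open_source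
  set N : Set (ℂ × ℂ) := {z | z ∈ O ∧ proj z ∉ A} with hN
  have hNo : IsOpen N := by
    rw [isOpen_iff_mem_nhds]
    rintro z ⟨hz, hzA⟩
    rw [hO, mem_iUnion₂] at hz
    obtain ⟨ψ, hψ, hzψ⟩ := hz
    have hcont : ContinuousOn (fun w => (ψ w).2) ψ.source :=
      continuous_snd.comp_continuousOn ψ.continuousOn
    have hopen : IsOpen (ψ.source ∩ (fun w => (ψ w).2) ⁻¹' {0}ᶜ) :=
      hcont.isOpen_inter_preimage ψ.open_source isOpen_compl_singleton
    have hmem : z ∈ ψ.source ∩ (fun w => (ψ w).2) ⁻¹' {0}ᶜ := by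
      refine ⟨hzψ, ?_⟩
      rw [mem_preimage, mem_compl_singleton_iff]
      intro h0
      exact hzA ((hψ.2.2 z hzψ).2 h0)
    refine mem_of_superset (hopen.mem_nhds hmem) ?_
    rintro w ⟨hw1, hw2⟩
    refine ⟨?_, ?_⟩
    · rw [hO, mem_iUnion₂]; exact ⟨ψ, hψ, hw1⟩
    · intro hwA
      exact hw2 ((hψ.2.2 w hw1).1 hwA)
  have heq : Reg A = O \ N := by
    ext z
    rw [mem_Reg_iff, Set.mem_sdiff]
    constructor
    · rintro ⟨h1, ψ, h2, h3⟩
      refine ⟨?_, fun h => h.2 h1⟩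
      rw [hO, mem_iUnion₂]; exact ⟨ψ, h3, h2⟩
    · rintro ⟨h1, h2⟩
      have hzA : proj z ∈ A := by
        by_contra h
        exact h2 ⟨h1, h⟩
      rw [hO, mem_iUnion₂] at h1
      obtain ⟨ψ, hψ, hzψ⟩ := h1
      exact ⟨hzA, ψ, hzψ, hψ⟩
  rw [heq]
  exact hOo.measurableSet.diff hNo.measurableSet

/-! ### The area measure -/

/-- the linear homeomorphism from Euclidean `ℂ²` -/
noncomputable def LE : EuclideanSpace ℂ (Fin 2) ≃L[ℂ] (ℂ × ℂ) :=
  (PiLp.continuousLinearEquiv 2 ℂ (fun _ : Fin 2 => ℂ)).trans (ContinuousLinearEquiv.finTwoArrow ℂ ℂ)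

lemma LE_apply (z : EuclideanSpace ℂ (Fin 2)) : LE z = (z 0, z 1) := rfl

lemma area_apply (S : Set (ℂ × ℂ)) :
    area S = (μHE[2] : Measure (EuclideanSpace ℂ (Fin 2))) (LE.symm '' S) := by
  have h1 : area = Measure.map LE.toHomeomorph.toMeasurableEquiv μHE[2] := rfl
  rw [h1, MeasurableEquiv.map_apply]
  congr 1
  ext w
  constructor
  · intro hw
    exact ⟨LE w, hw, LE.symm_apply_apply w⟩
  · rintro ⟨v, hv, rfl⟩
    change LE (LE.symm v) ∈ S
    rwa [LE.apply_symm_apply]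

lemma exists_lip_LE : ∃ K : ℝ≥0, LipschitzWith K LE := ⟨_, LE.lipschitz⟩
lemma exists_lip_LE_symm : ∃ K : ℝ≥0, LipschitzWith K LE.symm := ⟨_, LE.symm.lipschitz⟩

lemma muHE_lipschitz_image_le {X Y : Type*} [EMetricSpace X] [MeasurableSpace X] [BorelSpace X]
    [EMetricSpace Y] [MeasurableSpace Y] [BorelSpace Y] {K : ℝ≥0} {f : X → Y} {s : Set X}
    (h : LipschitzOnWith K f s) :
    (μHE[2] : Measure Y) (f '' s) ≤ (K : ℝ≥0∞) ^ 2 * (μHE[2] : Measure X) s := by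
  rw [Measure.euclideanHausdorffMeasure_def, Measure.euclideanHausdorffMeasure_def,
    Measure.smul_apply, Measure.smul_apply]
  have h1 := h.hausdorffMeasure_image_le (d := 2) (by norm_num)
  have h2 : ((2 : ℕ) : ℝ) = (2 : ℝ) := by norm_num
  generalize Measure.addHaarScalarFactor (volume : Measure (EuclideanSpace ℝ (Fin 2)))
    μH[((2 : ℕ) : ℝ)] = c
  rw [h2]
  calc c • (μH[2] : Measure Y) (f '' s) ≤ c • ((K : ℝ≥0∞) ^ (2 : ℝ) * (μH[2] : Measure X) s) := by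
        gcongr
    _ = (K : ℝ≥0∞) ^ 2 * (c • (μH[2] : Measure X) s) := by
        rw [ENNReal.smul_def, ENNReal.smul_def, smul_eq_mul, smul_eq_mul]
        rw [← ENNReal.rpow_natCast]
        push_cast
        ring

/-- Lipschitz images of planar sets of finite area have finite area. -/
lemma area_image_lt_top {f : ℂ → ℂ × ℂ} {s : Set ℂ} {K : ℝ≥0} (h : LipschitzOnWith K f s)
    (hs : (μHE[2] : Measure ℂ) s < ⊤) : area (f '' s) < ⊤ := by
  obtain ⟨C, hC⟩ := exists_lip_LE_symm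
  rw [area_apply, ← image_comp]
  refine (muHE_lipschitz_image_le (hC.comp_lipschitzOnWith h)).trans_lt ?_
  exact ENNReal.mul_lt_top (ENNReal.pow_lt_top ENNReal.coe_lt_top) hs

/-- A set with a Lipschitz image of positive planar area has positive area. -/
lemma area_pos_of_image {g : ℂ × ℂ → ℂ} {S : Set (ℂ × ℂ)} {K : ℝ≥0} (h : LipschitzOnWith K g S)
    (hs : 0 < (μHE[2] : Measure ℂ) (g '' S)) : 0 < area S := by
  obtain ⟨C, hC⟩ := exists_lip_LE
  have h1 : LipschitzOnWith (K * C) (g ∘ LE) (LE.symm '' S) := by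
    refine h.comp hC.lipschitzOnWith ?_
    rintro _ ⟨v, hv, rfl⟩
    rwa [LE.apply_symm_apply]
  have h2 : (g ∘ LE) '' (LE.symm '' S) = g '' S := by
    rw [← image_comp]
    congr 1
  have h3 := muHE_lipschitz_image_le h1
  rw [h2] at h3
  rw [area_apply]
  rcases eq_or_ne ((μHE[2] : Measure (EuclideanSpace ℂ (Fin 2))) (LE.symm '' S)) 0 with h | h
  · rw [h, mul_zero] at h3
    exact absurd (lt_of_lt_of_le hs h3) (lt_irrefl _)
  · exact pos_iff_ne_zero.2 h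

lemma finrank_C : Module.finrank ℝ ℂ = 2 := Complex.finrank_real_complex

lemma muHE_ball_lt_top (r : ℝ) : (μHE[2] : Measure ℂ) (Metric.ball 0 r) < ⊤ := by
  have h : (μHE[Module.finrank ℝ ℂ] : Measure ℂ) (Metric.ball 0 r) < ⊤ := measure_ball_lt_top
  rwa [finrank_C] at h

lemma muHE_ball_pos {r : ℝ} (hr : 0 < r) : 0 < (μHE[2] : Measure ℂ) (Metric.ball 0 r) := by
  have h : 0 < (μHE[Module.finrank ℝ ℂ] : Measure ℂ) (Metric.ball 0 r) :=
    Metric.measure_ball_pos _ _ hr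
  rwa [finrank_C] at h

/-! ### Lines -/

/-- the complex line through `w` in the first coordinate direction -/
def line (w : ℂ × ℂ) (ζ : ℂ) : ℂ × ℂ := (w.1 + ζ, w.2)

lemma line_isometry (w : ℂ × ℂ) : Isometry (line w) := by
  apply Isometry.of_dist_eq
  intro a b
  unfold line
  rw [Prod.dist_eq]
  simp

lemma line_zero (w : ℂ × ℂ) : line w 0 = w := by simp [line]

lemma line_of_eq {w v : ℂ × ℂ} (h : v.2 = w.2) : line w (v.1 - w.1) = v := by
  ext <;> simp [line, h]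

lemma line_ball {w : ℂ × ℂ} {r : ℝ} {ζ : ℂ} (h : ζ ∈ Metric.ball (0 : ℂ) r) :
    line w ζ ∈ Metric.ball w r := by
  rw [Metric.mem_ball]
  have h5 := (line_isometry w).dist_eq ζ 0
  rw [line_zero] at h5
  rw [h5]
  exact h

lemma contDiffAt_of_analytic {f : ℂ × ℂ → ℂ × ℂ} {s : Set (ℂ × ℂ)} (h : AnalyticOnNhd ℂ f s)
    {z : ℂ × ℂ} (hz : z ∈ s) : ContDiffAt ℝ 1 f z := by
  have h1 : ContDiffAt ℂ 1 f z := (h z hz).contDiffAt
  exact h1.restrict_scalars ℝ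

/-- near a regular point the regular set has finite area -/
lemma reg_finite {A : Set Torus} {z : ℂ × ℂ} (hz : z ∈ Reg A) :
    ∃ B : Set (ℂ × ℂ), IsOpen B ∧ z ∈ B ∧ area (Reg A ∩ B) < ⊤ := by
  obtain ⟨hzA, ψ, hzψ, h1, h2, h3⟩ := mem_Reg_iff.1 hz
  have hw0 : ψ z ∈ ψ.target := ψ.map_source hzψ
  obtain ⟨K, t, ht, hK⟩ := (contDiffAt_of_analytic h2 hw0).exists_lipschitzOnWith
  have hnhds : t ∩ ψ.target ∈ 𝓝 (ψ z) := inter_mem ht (ψ.open_target.mem_nhds hw0)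
  obtain ⟨r, hr, hball⟩ := Metric.mem_nhds_iff.1 hnhds
  have hBo : IsOpen (ψ.source ∩ ψ ⁻¹' (Metric.ball (ψ z) r)) :=
    ψ.isOpen_inter_preimage Metric.isOpen_ball
  have hzB : z ∈ ψ.source ∩ ψ ⁻¹' (Metric.ball (ψ z) r) := by
    refine ⟨hzψ, ?_⟩
    rw [mem_preimage]
    exact Metric.mem_ball_self hr
  refine ⟨ψ.source ∩ ψ ⁻¹' (Metric.ball (ψ z) r), hBo, hzB, ?_⟩
  have hz1 : (ψ z).2 = 0 := (h3 z hzψ).1 hzA
  have hsub : Reg A ∩ (ψ.source ∩ ψ ⁻¹' (Metric.ball (ψ z) r)) ⊆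
      (fun ζ => ψ.symm (line (ψ z) ζ)) '' (Metric.ball 0 r) := by
    rintro w ⟨hwR, hwψ, hwb⟩
    have hwA : (ψ w).2 = 0 := (h3 w hwψ).1 (mem_Reg_iff.1 hwR).1
    have hl : line (ψ z) ((ψ w).1 - (ψ z).1) = ψ w := line_of_eq (by rw [hwA, hz1])
    have h5 := (line_isometry (ψ z)).dist_eq ((ψ w).1 - (ψ z).1) 0
    rw [hl, line_zero] at h5
    refine ⟨(ψ w).1 - (ψ z).1, ?_, ?_⟩
    · rw [Metric.mem_ball, ← h5]
      exact hwb
    · change ψ.symm (line (ψ z) ((ψ w).1 - (ψ z).1)) = w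
      rw [hl, ψ.left_inv hwψ]
  refine (measure_mono hsub).trans_lt ?_
  have hlip : LipschitzOnWith (K * 1) (ψ.symm ∘ line (ψ z)) (Metric.ball 0 r) := by
    refine hK.comp (line_isometry (ψ z)).lipschitz.lipschitzOnWith ?_
    intro ζ hζ
    exact (hball (line_ball hζ)).1
  exact area_image_lt_top hlip (muHE_ball_lt_top r)

/-- near a regular point the regular set has positive area -/
lemma reg_pos {A : Set Torus} {z : ℂ × ℂ} (hz : z ∈ Reg A) {O : Set (ℂ × ℂ)} (hO : IsOpen O)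
    (hzO : z ∈ O) : 0 < area (Reg A ∩ O) := by
  obtain ⟨hzA, ψ, hzψ, h1, h2, h3⟩ := mem_Reg_iff.1 hz
  have hw0 : ψ z ∈ ψ.target := ψ.map_source hzψ
  obtain ⟨K, t, ht, hK⟩ := (contDiffAt_of_analytic h1 hzψ).exists_lipschitzOnWith
  have hOt : O ∩ t ∈ 𝓝 (ψ.symm (ψ z)) := by
    rw [ψ.left_inv hzψ]; exact inter_mem (hO.mem_nhds hzO) ht
  have hpre : ψ.symm ⁻¹' (O ∩ t) ∈ 𝓝 (ψ z) := (ψ.continuousAt_symm hw0).preimage_mem_nhds hOt
  have hnhds : ψ.symm ⁻¹' (O ∩ t) ∩ ψ.target ∈ 𝓝 (ψ z) :=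
    inter_mem hpre (ψ.open_target.mem_nhds hw0)
  obtain ⟨r, hr, hball⟩ := Metric.mem_nhds_iff.1 hnhds
  have hz1 : (ψ z).2 = 0 := (h3 z hzψ).1 hzA
  have hlb : ∀ ζ ∈ Metric.ball (0 : ℂ) r, line (ψ z) ζ ∈ ψ.symm ⁻¹' (O ∩ t) ∩ ψ.target :=
    fun ζ hζ => hball (line_ball hζ)
  set S : Set (ℂ × ℂ) := (fun ζ => ψ.symm (line (ψ z) ζ)) '' (Metric.ball 0 r) with hS
  have hSt : S ⊆ Reg A ∩ (O ∩ t) := by
    rintro _ ⟨ζ, hζ, rfl⟩
    obtain ⟨h6, h7⟩ := hlb ζ hζ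
    refine ⟨mem_Reg_iff.2 ⟨?_, ψ, ψ.map_target h7, h1, h2, h3⟩, h6⟩
    rw [h3 _ (ψ.map_target h7), ψ.right_inv h7]
    exact hz1
  have hlip : LipschitzOnWith (1 * K) (Prod.fst ∘ ψ) S :=
    (LipschitzWith.prod_fst.lipschitzOnWith (s := univ)).comp (hK.mono fun w hw => (hSt hw).2.2)
      (mapsTo_univ _ _)
  have himg : (fun ζ : ℂ => (ψ z).1 + ζ) '' (Metric.ball 0 r) ⊆ (Prod.fst ∘ ψ) '' S := by
    rintro _ ⟨ζ, hζ, rfl⟩
    refine ⟨ψ.symm (line (ψ z) ζ), ⟨ζ, hζ, rfl⟩, ?_⟩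
    rw [Function.comp_apply, ψ.right_inv (hlb ζ hζ).2]
    rfl
  have hpos : 0 < (μHE[2] : Measure ℂ) ((Prod.fst ∘ ψ) '' S) := by
    refine lt_of_lt_of_le ?_ (measure_mono himg)
    have hiso : Isometry (fun ζ : ℂ => (ψ z).1 + ζ) := isometry_add_left _
    rw [hiso.euclideanHausdorffMeasure_image]
    exact muHE_ball_pos hr
  refine lt_of_lt_of_le (area_pos_of_image hlip hpos)
    (measure_mono fun w hw => ⟨(hSt hw).1, (hSt hw).2.1⟩)

/-- the unit tangent vector at a regular point is a unit vector -/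
lemma norm_unitTangent {A : Set Torus} {z : ℂ × ℂ} (hz : z ∈ Reg A) :
    ‖(unitTangent A z).1‖ ^ 2 + ‖(unitTangent A z).2‖ ^ 2 = 1 := by
  have hex : ∃ u : ℂ × ℂ, ‖u.1‖ ^ 2 + ‖u.2‖ ^ 2 = 1 ∧ u ∈ tangentConeAt ℝ (proj ⁻¹' A) z := by
    obtain ⟨hzA, ψ, hzψ, h1, h2, h3⟩ := mem_Reg_iff.1 hz
    have hw0 : ψ z ∈ ψ.target := ψ.map_source hzψ
    have hz1 : (ψ z).2 = 0 := (h3 z hzψ).1 hzA
    set e : ℂ × ℂ := (1, 0) with he
    have hd2 : HasFDerivAt ψ.symm (fderiv ℝ ψ.symm (ψ z)) (ψ z) :=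
      ((contDiffAt_of_analytic h2 hw0).differentiableAt (by simp)).hasFDerivAt
    have hd1 : HasFDerivAt ψ (fderiv ℝ ψ z) (ψ.symm (ψ z)) := by
      rw [ψ.left_inv hzψ]
      exact ((contDiffAt_of_analytic h1 hzψ).differentiableAt (by simp)).hasFDerivAt
    set L := fderiv ℝ ψ.symm (ψ z) with hL
    have hinj : L e ≠ 0 := by
      intro h0
      have hcomp : HasFDerivAt (ψ ∘ ψ.symm) ((fderiv ℝ ψ z).comp L) (ψ z) := hd1.comp (ψ z) hd2
      have hid : HasFDerivAt (ψ ∘ ψ.symm) (ContinuousLinearMap.id ℝ (ℂ × ℂ)) (ψ z) := by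
        refine (hasFDerivAt_id (𝕜 := ℝ) (ψ z)).congr_of_eventuallyEq ?_
        filter_upwards [ψ.open_target.mem_nhds hw0] with w hw
        exact ψ.right_inv hw
      have heq := hcomp.unique hid
      have h5 := congrArg (fun M : (ℂ × ℂ) →L[ℝ] (ℂ × ℂ) => M e) heq
      simp only [ContinuousLinearMap.comp_apply, h0, map_zero, ContinuousLinearMap.id_apply] at h5
      have h6 := congrArg Prod.fst h5
      simp [he] at h6
    set s : ℝ := ‖(L e).1‖ ^ 2 + ‖(L e).2‖ ^ 2 with hs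
    have hspos : 0 < s := by
      rcases eq_or_ne (L e).1 0 with h | h
      · have h' : (L e).2 ≠ 0 := fun h'' => hinj (Prod.ext h h'')
        have := norm_pos_iff.2 h'
        positivity
      · have := norm_pos_iff.2 h
        positivity
    set c : ℝ := (Real.sqrt s)⁻¹ with hc
    have hcpos : 0 < c := inv_pos.2 (Real.sqrt_pos.2 hspos)
    refine ⟨c • L e, ?_, ?_⟩
    · rw [Prod.smul_fst, Prod.smul_snd, norm_smul, norm_smul, mul_pow, mul_pow, ← mul_add, ← hs,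
        Real.norm_of_nonneg hcpos.le, hc, inv_pow, Real.sq_sqrt hspos.le]
      exact inv_mul_cancel₀ hspos.ne'
    · -- the curve
      set g : ℝ → ℂ × ℂ := fun t => ψ.symm (ψ z + t • (c • e)) with hg
      have hg0 : g 0 = z := by
        simp only [hg, zero_smul, add_zero]
        exact ψ.left_inv hzψ
      have hgd : HasDerivAt g (c • L e) 0 := by
        have hline : HasDerivAt (fun t : ℝ => ψ z + t • (c • e)) (c • e) 0 := by
          have := ((hasDerivAt_id (0 : ℝ)).smul_const (c • e)).const_add (ψ z)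
          simpa using this
        have hd2' : HasFDerivAt ψ.symm L (ψ z + (0 : ℝ) • (c • e)) := by
          rw [zero_smul, add_zero]; exact hd2
        have := hd2'.comp_hasDerivAt (0 : ℝ) hline
        rw [L.map_smul] at this
        exact this
      have hslope := hasDerivAt_iff_tendsto_slope_zero.1 hgd
      simp only [zero_add, hg0] at hslope
      refine mem_tangentConeAt_of_seq (𝓝[≠] (0 : ℝ)) (fun t => t⁻¹) (fun t => g t - z) ?_ ?_ hslope
      · have hcont : Tendsto g (𝓝 0) (𝓝 (g 0)) := hgd.continuousAt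
        rw [hg0] at hcont
        have := (hcont.sub_const z).mono_left (nhdsWithin_le_nhds (s := {(0:ℝ)}ᶜ))
        simpa using this
      · have hcl : Continuous fun t : ℝ => ψ z + t • (c • e) := by fun_prop
        have hmem : ∀ᶠ t : ℝ in 𝓝 0, ψ z + t • (c • e) ∈ ψ.target := by
          apply hcl.continuousAt.eventually_mem
          simp only [zero_smul, add_zero]
          exact ψ.open_target.mem_nhds hw0
        filter_upwards [nhdsWithin_le_nhds hmem] with t ht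
        rw [add_sub_cancel, mem_preimage, h3 _ (ψ.map_target ht)]
        rw [ψ.right_inv ht]
        simp [he, hz1]
  exact (Classical.epsilon_spec hex).1

end Pool.Agent.Helper82.Sullivan
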