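import Pool.Agent.Helper82.Sullivan.Current

/-!
# Test forms
-/

open MeasureTheory Set Filter Topology
open scoped ContDiff NNReal

namespace Pool.Agent.Helper82.Sullivan

/-- one-dimensional periodic bump -/
noncomputable def bump (κ t : ℝ) : ℝ := expNegInvGlue (Real.cos (2 * Real.pi * t) - κ)

lemma bump_nonneg (κ t : ℝ) : 0 ≤ bump κ t := expNegInvGlue.nonneg _

lemma bump_contDiff (κ : ℝ) : ContDiff ℝ ∞ (bump κ) := by
  unfold bump
  apply expNegInvGlue.contDiff.comp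
  fun_prop

lemma bump_periodic (κ t : ℝ) (a : ℤ) : bump κ (t + a) = bump κ t := by
  unfold bump
  rw [mul_add, show 2 * Real.pi * (a : ℝ) = (a : ℝ) * (2 * Real.pi) by ring,
    Real.cos_add_int_mul_two_pi]

lemma bump_ne_zero {κ t : ℝ} (h : bump κ t ≠ 0) : κ < Real.cos (2 * Real.pi * t) := by
  by_contra hc
  push Not at hc
  exact h (expNegInvGlue.zero_of_nonpos (by linarith))

lemma bump_pos {κ t : ℝ} (h : κ < Real.cos (2 * Real.pi * t)) : 0 < bump κ t :=
  expNegInvGlue.pos_of_pos (by linarith)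

/-- coordinates -/
noncomputable def crd : Fin 2 → ((ℂ × ℂ) →L[ℂ] ℂ) :=
  ![ContinuousLinearMap.fst ℂ ℂ ℂ, ContinuousLinearMap.snd ℂ ℂ ℂ]

/-- real part of the `k`-th coordinate -/
noncomputable def reC (k : Fin 2) : (ℂ × ℂ) →L[ℝ] ℝ :=
  Complex.reCLM.comp ((crd k).restrictScalars ℝ)

/-- imaginary part of the `k`-th coordinate -/
noncomputable def imC (k : Fin 2) : (ℂ × ℂ) →L[ℝ] ℝ :=
  Complex.imCLM.comp ((crd k).restrictScalars ℝ)

lemma reC_zero (z : ℂ × ℂ) : reC 0 z = z.1.re := rfl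
lemma reC_one (z : ℂ × ℂ) : reC 1 z = z.2.re := rfl
lemma imC_zero (z : ℂ × ℂ) : imC 0 z = z.1.im := rfl
lemma imC_one (z : ℂ × ℂ) : imC 1 z = z.2.im := rfl

/-- periodic bump on `ℂ × ℂ` -/
noncomputable def bumpE (κ : ℝ) (z : ℂ × ℂ) : ℝ :=
  bump κ (reC 0 z) * bump κ (imC 0 z) * (bump κ (reC 1 z) * bump κ (imC 1 z))

lemma bumpE_nonneg (κ : ℝ) (z : ℂ × ℂ) : 0 ≤ bumpE κ z :=
  mul_nonneg (mul_nonneg (bump_nonneg _ _) (bump_nonneg _ _))
    (mul_nonneg (bump_nonneg _ _) (bump_nonneg _ _))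

lemma bumpE_contDiff (κ : ℝ) : ContDiff ℝ ∞ (bumpE κ) := by
  unfold bumpE
  have := bump_contDiff κ
  fun_prop

lemma lat_coord {l : ℂ × ℂ} (hl : l ∈ Lat) (k : Fin 2) :
    ∃ a b : ℤ, reC k l = a ∧ imC k l = b := by
  obtain ⟨a, b, c, d, rfl⟩ := mem_Lat.1 hl
  fin_cases k
  · exact ⟨a, b, by simp [reC_zero], by simp [imC_zero]⟩
  · exact ⟨c, d, by simp [reC_one], by simp [imC_one]⟩

lemma bumpE_periodic (κ : ℝ) (z : ℂ × ℂ) {l : ℂ × ℂ} (hl : l ∈ Lat) :
    bumpE κ (z + l) = bumpE κ z := by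
  unfold bumpE
  obtain ⟨a0, b0, h0, h0'⟩ := lat_coord hl 0
  obtain ⟨a1, b1, h1, h1'⟩ := lat_coord hl 1
  simp only [map_add, h0, h0', h1, h1', bump_periodic]

/-- the closed periodic set containing the support of `bumpE κ` -/
def kbox (κ : ℝ) : Set (ℂ × ℂ) :=
  {z | ∀ k, κ ≤ Real.cos (2 * Real.pi * reC k z) ∧ κ ≤ Real.cos (2 * Real.pi * imC k z)}

lemma mem_kbox {κ : ℝ} {z : ℂ × ℂ} : z ∈ kbox κ ↔
    ∀ k, κ ≤ Real.cos (2 * Real.pi * reC k z) ∧ κ ≤ Real.cos (2 * Real.pi * imC k z) := Iff.rfl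

lemma bumpE_ne_zero {κ : ℝ} {z : ℂ × ℂ} (h : bumpE κ z ≠ 0) : z ∈ kbox κ := by
  unfold bumpE at h
  simp only [mul_ne_zero_iff] at h
  obtain ⟨⟨h1, h2⟩, h3, h4⟩ := h
  rw [mem_kbox]
  intro k
  fin_cases k
  · exact ⟨(bump_ne_zero h1).le, (bump_ne_zero h2).le⟩
  · exact ⟨(bump_ne_zero h3).le, (bump_ne_zero h4).le⟩

lemma isClosed_kbox (κ : ℝ) : IsClosed (kbox κ) := by
  have : kbox κ = ⋂ k, ({z | κ ≤ Real.cos (2 * Real.pi * reC k z)} ∩
      {z | κ ≤ Real.cos (2 * Real.pi * imC k z)}) := by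
    ext z
    simp [mem_kbox]
  rw [this]
  refine isClosed_iInter fun k => IsClosed.inter ?_ ?_
  · exact isClosed_le continuous_const (by fun_prop)
  · exact isClosed_le continuous_const (by fun_prop)

lemma kbox_periodic {κ : ℝ} {z l : ℂ × ℂ} (hl : l ∈ Lat) (hz : z ∈ kbox κ) : z + l ∈ kbox κ := by
  rw [mem_kbox] at *
  intro k
  obtain ⟨a, b, h, h'⟩ := lat_coord hl k
  have e : ∀ (t : ℝ) (a : ℤ), Real.cos (2 * Real.pi * (t + a)) = Real.cos (2 * Real.pi * t) := by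
    intro t a
    rw [mul_add, show 2 * Real.pi * (a : ℝ) = (a : ℝ) * (2 * Real.pi) by ring,
      Real.cos_add_int_mul_two_pi]
  rw [map_add, map_add, h, h', e, e]
  exact hz k

lemma dist_round_sq {κ t : ℝ} (h : κ ≤ Real.cos (2 * Real.pi * t)) :
    (t - round t) ^ 2 ≤ (1 - κ) / 8 := by
  set d := t - round t with hd
  have hcos : Real.cos (2 * Real.pi * t) = Real.cos (2 * (Real.pi * d)) := by
    rw [hd, show 2 * (Real.pi * (t - round t)) = 2 * Real.pi * t - (round t : ℝ) * (2 * Real.pi) by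
      ring, Real.cos_sub_int_mul_two_pi]
  rw [hcos, Real.cos_two_mul] at h
  have hs := Real.sin_sq_add_cos_sq (Real.pi * d)
  have habs : |d| ≤ 1 / 2 := abs_sub_round t
  have hx : |Real.pi * d| ≤ Real.pi / 2 := by
    rw [abs_mul, abs_of_pos Real.pi_pos]
    nlinarith [Real.pi_pos]
  have h3 := Real.mul_abs_le_abs_sin hx
  have h4 : 2 * |d| ≤ |Real.sin (Real.pi * d)| := by
    refine le_trans (le_of_eq ?_) h3
    rw [abs_mul, abs_of_pos Real.pi_pos]
    field_simp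
  have h5 : (2 * |d|) ^ 2 ≤ Real.sin (Real.pi * d) ^ 2 := by
    rw [← sq_abs (Real.sin _)]
    exact pow_le_pow_left₀ (by positivity) h4 2
  have h6 : (2 * |d|) ^ 2 = 4 * d ^ 2 := by
    rw [mul_pow, sq_abs]; ring
  nlinarith

/-- the lattice vector nearest to `z` -/
noncomputable def near (z : ℂ × ℂ) : ℂ × ℂ :=
  (((round (reC 0 z) : ℤ) : ℂ) + ((round (imC 0 z) : ℤ) : ℂ) * Complex.I,
    ((round (reC 1 z) : ℤ) : ℂ) + ((round (imC 1 z) : ℤ) : ℂ) * Complex.I)

lemma near_mem (z : ℂ × ℂ) : near z ∈ Lat := mem_Lat.2 ⟨_, _, _, _, rfl⟩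

lemma sq_norm_le (z : ℂ × ℂ) : ‖z‖ ^ 2 ≤
    (reC 0 z) ^ 2 + (imC 0 z) ^ 2 + ((reC 1 z) ^ 2 + (imC 1 z) ^ 2) := by
  have h1 : ‖z.1‖ ^ 2 = (reC 0 z) ^ 2 + (imC 0 z) ^ 2 := by
    rw [Complex.sq_norm, Complex.normSq_apply, reC_zero, imC_zero]; ring
  have h2 : ‖z.2‖ ^ 2 = (reC 1 z) ^ 2 + (imC 1 z) ^ 2 := by
    rw [Complex.sq_norm, Complex.normSq_apply, reC_one, imC_one]; ring
  rw [← h1, ← h2, Prod.norm_def]
  rcases max_choice ‖z.1‖ ‖z.2‖ with h | h <;> rw [h]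
  · nlinarith [sq_nonneg ‖z.2‖]
  · nlinarith [sq_nonneg ‖z.1‖]

lemma kbox_near {κ : ℝ} {z : ℂ × ℂ} (hz : z ∈ kbox κ) : ‖z - near z‖ ^ 2 ≤ (1 - κ) / 2 := by
  refine (sq_norm_le _).trans ?_
  have e0 : reC 0 (z - near z) = reC 0 z - round (reC 0 z) := by
    simp [near, reC_zero]
  have e1 : imC 0 (z - near z) = imC 0 z - round (imC 0 z) := by
    simp [near, imC_zero]
  have e2 : reC 1 (z - near z) = reC 1 z - round (reC 1 z) := by
    simp [near, reC_one]
  have e3 : imC 1 (z - near z) = imC 1 z - round (imC 1 z) := by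
    simp [near, imC_one]
  rw [e0, e1, e2, e3]
  have h0 := hz 0
  have h1 := hz 1
  have k0 := dist_round_sq h0.1
  have k1 := dist_round_sq h0.2
  have k2 := dist_round_sq h1.1
  have k3 := dist_round_sq h1.2
  linarith

/-- the standard Kähler form of `ℂ²` -/
noncomputable def kah (u v : ℂ × ℂ) : ℝ :=
  (reC 0 u * imC 0 v - imC 0 u * reC 0 v) + (reC 1 u * imC 1 v - imC 1 u * reC 1 v)

lemma kah_apply (u : ℂ × ℂ) : kah u (Complex.I • u) = ‖u.1‖ ^ 2 + ‖u.2‖ ^ 2 := by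
  have h1 : ‖u.1‖ ^ 2 = (reC 0 u) ^ 2 + (imC 0 u) ^ 2 := by
    rw [Complex.sq_norm, Complex.normSq_apply, reC_zero, imC_zero]; ring
  have h2 : ‖u.2‖ ^ 2 = (reC 1 u) ^ 2 + (imC 1 u) ^ 2 := by
    rw [Complex.sq_norm, Complex.normSq_apply, reC_one, imC_one]; ring
  rw [h1, h2]
  unfold kah
  simp [reC_zero, imC_zero, reC_one, imC_one]
  ring

/-- the bump function on the torus -/
noncomputable def chi (κ : ℝ) (q : ℂ × ℂ) (x : Torus) : ℝ := bumpE κ (Quotient.out x - q)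

lemma proj_out (x : Torus) : proj (Quotient.out x) = x := Quotient.out_eq x

lemma chi_proj (κ : ℝ) (q z : ℂ × ℂ) : chi κ q (proj z) = bumpE κ (z - q) := by
  unfold chi
  have h : proj z = proj (Quotient.out (proj z)) := (proj_out (proj z)).symm
  rw [proj_eq_iff] at h
  have := bumpE_periodic κ (z - q) h
  rw [← this]
  congr 1
  abel

/-- the test form -/
noncomputable def tf (κ : ℝ) (q : ℂ × ℂ) (x : Torus) (u v : ℂ × ℂ) : ℝ := chi κ q x * kah u v

lemma tf_isForm2 (κ : ℝ) (q : ℂ × ℂ) : IsForm2 (tf κ q) := by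
  refine ⟨?_, ?_, ?_, ?_⟩
  · intro x u v w
    simp only [tf, kah, map_add]; ring
  · intro x a u v
    simp only [tf, kah, map_smul, smul_eq_mul]; ring
  · intro x u v
    simp only [tf, kah]; ring
  · intro u v
    simp only [tf, chi_proj]
    have := bumpE_contDiff κ
    fun_prop

lemma tf_apply (κ : ℝ) (q z u : ℂ × ℂ) :
    tf κ q (proj z) u (Complex.I • u) = bumpE κ (z - q) * (‖u.1‖ ^ 2 + ‖u.2‖ ^ 2) := by
  rw [tf, chi_proj, kah_apply]

lemma continuous_proj : Continuous proj := continuous_quot_mk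

lemma isClosed_torus {C : Set Torus} (h : IsClosed (proj ⁻¹' C)) : IsClosed C :=
  (QuotientAddGroup.isQuotientMap_mk (N := Lat)).isClosed_preimage.1 h

/-- support criterion for the test forms -/
lemma tf_supportedIn {κ : ℝ} {q : ℂ × ℂ} {U : Set Torus}
    (h : ∀ z : ℂ × ℂ, z - q ∈ kbox κ → proj z ∈ U) : SupportedIn (tf κ q) U := by
  unfold SupportedIn
  set C : Set Torus := {x | Quotient.out x - q ∈ kbox κ} with hC
  have hpre : proj ⁻¹' C = {z | z - q ∈ kbox κ} := by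
    ext z
    rw [mem_preimage]
    have h1 : proj z = proj (Quotient.out (proj z)) := (proj_out (proj z)).symm
    rw [proj_eq_iff] at h1
    constructor
    · intro hz
      have hz' : Quotient.out (proj z) - q ∈ kbox κ := hz
      have := kbox_periodic (Lat.neg_mem h1) hz'
      have e : Quotient.out (proj z) - q + -(Quotient.out (proj z) - z) = z - q := by abel
      rw [e] at this
      exact this
    · intro hz
      have hz' : z - q ∈ kbox κ := hz
      have := kbox_periodic h1 hz'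
      have e : z - q + (Quotient.out (proj z) - z) = Quotient.out (proj z) - q := by abel
      rw [e] at this
      exact this
  have hclosed : IsClosed C := by
    apply isClosed_torus
    rw [hpre]
    exact (isClosed_kbox κ).preimage (continuous_id.sub continuous_const)
  have hsub : C ⊆ U := by
    intro x hx
    have := h (Quotient.out x) hx
    rwa [proj_out] at this
  refine (closure_minimal ?_ hclosed).trans hsub
  rintro x ⟨u, v, hx⟩
  have : chi κ q x ≠ 0 := left_ne_zero_of_mul hx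
  exact bumpE_ne_zero this

end Pool.Agent.Helper82.Sullivan
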